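import Pool.Agent.Codim3.Check

/-!
Certificates.
-/

namespace Pool.Agent.Codim3

/-- initial state, second element not isolated -/
def st4 : St := ⟨[1, 2, 0, 4], [(3, 5), (1, 8)], [(2, 4)], [(2, 1)]⟩

/-- initial state, second element isolated -/
def st3 : St := ⟨[1, 2, 0, 4], [(3, 5), (1, 8)], [], [(2, 1), (2, 4), (2, 5)]⟩

/-- certificate for `st3` -/
def cert3 : Cert :=
  (.slot  [.seta 3, .addP 5, .swp, .seta 1, .addP 8, .swp, .mix, .swp, .sym, .addA, .sym, .swp, .mix] .nil 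
  (.forb 2 1)  (.slot  [.seta 1, .addP 8, .swp, .seta 14, .addP 21, .swp, .addA, .mix, .swp, .sym, .swp,
  .addA, .mix]  (.split  [.seta 3, .addP 5, .swp, .seta 1, .addP 8, .swp, .sym, .swp, .mix, .swp, .sym, .addA]
  .nil .nil  (.conc 11 5 3)  (.conc 11 19 2)  (.conc 11 19 2)  (.conc 11 5 3) .nil .nil) .nil .nil  (.split 
  [.seta 12, .addP 24, .swp, .seta 19, .addP 38, .swp, .sym, .swp, .addA, .mix, .swp, .addA, .sym, .swp] 
  (.conc 33 1 4)  (.conc 11 3 1)  (.conc 33 1 4)  (.conc 11 5 3) .nil .nil .nil .nil)  (.split  [.seta 3,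
  .addP 5, .swp, .seta 28, .addP 40, .sym, .addA, .sym, .mix, .swp, .addA, .sym]  (.conc 46 8 1) .nil  (.conc
  46 8 1) .nil  (.conc 55 24 4) .nil  (.conc 25 12 6) .nil) .nil .nil  (.slot  [.seta 2, .addP 16, .swp, .seta
  15, .addP 32, .swp, .mix, .swp, .sym]  (.split  [.seta 3, .addP 5, .swp, .seta 15, .addP 32, .mix, .swp,
  .sym, .addA, .sym] .nil .nil  (.thin 12 5 2)  (.split  [.seta 1, .addP 8, .swp, .seta 28, .addP 40, .swp,
  .sym, .swp, .addA, .mix, .addA, .swp, .sym] .nil .nil .nil .nil  (.thin 20 3 4)  (.split  [.seta 1, .addP 8,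
  .swp, .seta 15, .addP 32, .swp, .addA, .sym, .swp, .mix, .swp, .sym, .addA] .nil  (.thin 33 2 5)  (.thin 33
  1 5) .nil .nil  (.split  [.seta 3, .addP 5, .swp, .seta 1, .addP 8, .mix, .swp, .sym, .addP 80, .addA, .sym,
  .swp, .mix, .swp] .nil .nil  (.split  [.seta 14, .addP 21, .swp, .seta 19, .addP 38, .mix, .swp, .addA,
  .sym, .addP 64, .swp, .mix, .addA, .sym, .swp, .sym, .addA] .nil  (.thin 6 6 1) .nil  (.thin 6 4 1) .nil 
  (.conc 104 39 5) .nil  (.conc 110 48 7))  (.conc 94 3 2) .nil .nil  (.forb 2 4)  (.conc 94 3 2))  (.conc 39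
  13 2) .nil)  (.thin 53 2 1)  (.thin 53 3 1))  (.thin 38 2 1)  (.thin 38 3 1) .nil .nil)  (.split  [.seta 3,
  .addP 5, .swp, .seta 1, .addP 8, .mix, .swp, .sym, .swp, .mix, .swp]  (.thin 13 7 3) .nil .nil  (.thin 13 4
  3)  (.forb 2 4) .nil .nil  (.forb 2 5))  (.split  [.seta 3, .addP 5, .swp, .seta 1, .addP 8, .mix, .swp,
  .sym, .addP 80, .addA, .sym, .swp, .mix, .swp] .nil  (.forb 2 1)  (.split  [.seta 1, .addP 8, .swp, .seta
  28, .addP 40, .mix, .swp, .sym, .mix, .addP 64, .swp, .sym, .mix, .swp, .sym, .mix, .addA] .nil .nil .nil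
  .nil  (.thin 20 3 4)  (.thin 92 5 6)  (.thin 20 1 4)  (.thin 92 7 6)) .nil  (.forb 2 4) .nil .nil  (.forb 2
  5))  (.split  [.seta 3, .addP 5, .swp, .seta 1, .addP 8, .mix, .swp, .sym, .swp, .mix, .swp]  (.thin 13 7 1)
  .nil .nil  (.forb 2 1)  (.thin 13 3 1) .nil .nil  (.forb 2 5))  (.split  [.seta 3, .addP 5, .swp, .seta 1,
  .addP 8, .mix, .swp, .sym, .swp, .mix, .swp]  (.thin 13 7 3) .nil .nil  (.thin 13 4 3)  (.forb 2 4) .nil
  .nil  (.forb 2 5))  (.split  [.seta 3, .addP 5, .swp, .seta 1, .addP 8, .mix, .swp, .sym, .swp, .mix, .swp] 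
  (.split  [.seta 3, .addP 5, .swp, .seta 1, .addP 8, .mix, .swp, .sym, .addP 80, .addA, .sym, .swp, .mix,
  .swp]  (.split  [.seta 28, .addP 40, .swp, .seta 61, .addP 64, .swp, .sym, .addA, .sym, .mix, .swp, .addA,
  .sym]  (.thin 9 3 1)  (.thin 9 2 1)  (.conc 85 5 2)  (.conc 85 8 5)  (.conc 85 5 2)  (.conc 85 8 5)  (.thin
  92 6 4)  (.split  [.seta 12, .addP 24, .swp, .seta 61, .addP 64, .swp, .sym, .addA, .sym, .mix, .swp, .sym] 
  (.conc 41 15 4) .nil  (.conc 41 15 4) .nil .nil  (.conc 88 8 5) .nil  (.conc 88 13 7))) .nil .nil  (.forb 2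
  1) .nil  (.conc 94 14 5)  (.conc 92 12 2) .nil) .nil .nil  (.thin 13 4 2)  (.thin 13 3 2) .nil .nil  (.forb
  2 5))  (.split  [.seta 3, .addP 5, .swp, .seta 1, .addP 8, .mix, .swp, .sym, .swp, .mix, .swp]  (.thin 13 7
  1) .nil .nil  (.forb 2 1)  (.thin 13 3 1) .nil .nil  (.forb 2 5))  (.split  [.seta 3, .addP 5, .swp, .seta
  1, .addP 8, .mix, .swp, .sym, .swp, .mix, .swp]  (.split  [.seta 3, .addP 5, .swp, .seta 1, .addP 8, .mix,
  .swp, .sym, .addP 80, .addA, .sym, .swp, .mix, .swp]  (.split  [.seta 19, .addP 38, .swp, .seta 61, .addP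
  64, .sym, .swp, .mix, .swp, .sym, .mix, .swp] .nil  (.thin 27 1 3) .nil  (.conc 72 20 4)  (.thin 27 4 3)
  .nil  (.conc 83 13 2) .nil)  (.forb 2 1) .nil .nil  (.forb 2 4)  (.forb 2 5) .nil .nil) .nil .nil  (.forb 2
  1)  (.forb 2 4) .nil .nil  (.forb 2 5)))) .nil  (.forb 2 4) .nil .nil  (.forb 2 5))

/-- certificate for `st4` -/
def cert4 : Cert :=
  (.slot  [.seta 3, .addP 5, .swp, .seta 1, .addP 8, .sym, .addA, .sym, .mix, .swp, .sym, .addA]  (.slot  [.seta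
  3, .addP 5, .swp, .seta 13, .addP 30, .sym, .addA, .sym, .mix, .swp, .sym, .addA, .mix] .nil  (.slot  [.seta
  1, .addP 8, .swp, .seta 11, .addP 56, .swp, .mix, .swp, .sym]  (.split  [.seta 1, .addP 8, .swp, .seta 10,
  .addP 72, .swp, .sym, .swp, .sym, .addA, .mix, .addA, .swp, .sym] .nil  (.split  [.seta 3, .addP 5, .swp,
  .seta 58, .addP 64, .swp, .addA, .sym, .swp, .mix, .swp, .sym]  (.thin 67 2 5) .nil .nil  (.thin 67 1 5) 
  (.split  [.seta 1, .addP 8, .swp, .seta 16, .addP 38, .sym, .mix, .swp, .sym]  (.thin 24 1 2) .nil .nil 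
  (.conc 39 27 1)  (.thin 24 5 2) .nil .nil  (.conc 63 3 1)) .nil .nil  (.split  [.seta 7, .addP 16, .swp,
  .seta 11, .addP 56, .swp, .sym, .swp, .mix, .swp, .sym, .mix, .swp]  (.thin 27 5 1) .nil .nil  (.conc 36 24
  2)  (.conc 63 3 2) .nil .nil  (.thin 27 2 1)))  (.split  [.seta 3, .addP 5, .swp, .seta 58, .addP 64, .swp,
  .addA, .sym, .swp, .mix, .swp, .sym]  (.thin 67 2 6) .nil .nil  (.thin 67 1 6)  (.split  [.seta 1, .addP 8,
  .swp, .seta 16, .addP 38, .sym, .mix, .swp, .sym]  (.thin 24 1 2) .nil .nil  (.conc 39 27 1)  (.thin 24 5 2)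
  .nil .nil  (.conc 63 3 1)) .nil .nil  (.split  [.seta 7, .addP 16, .swp, .seta 11, .addP 56, .swp, .sym,
  .swp, .mix, .swp, .sym, .mix, .swp]  (.thin 27 5 1) .nil .nil  (.conc 36 24 2)  (.conc 63 3 2) .nil .nil 
  (.thin 27 2 1))) .nil .nil  (.conc 67 8 1)  (.conc 67 8 1) .nil) .nil  (.split  [.seta 1, .addP 8, .swp,
  .seta 11, .addP 56, .swp, .sym, .addA, .sym, .mix, .swp, .sym]  (.thin 48 7 4) .nil .nil  (.thin 2 7 4) 
  (.thin 48 3 4) .nil .nil  (.forb 2 1)) .nil  (.split  [.seta 3, .addP 5, .swp, .seta 11, .addP 56, .mix,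
  .addA, .sym, .swp, .sym, .addA]  (.conc 61 13 3) .nil .nil  (.thin 48 7 2)  (.conc 61 13 3) .nil .nil 
  (.thin 13 7 3)) .nil  (.split  [.seta 13, .addP 30, .swp, .seta 48, .addP 75, .swp, .mix, .swp, .sym, .mix,
  .swp] .nil .nil .nil .nil  (.conc 104 18 6)  (.conc 61 5 2)  (.conc 61 6 1)  (.conc 104 18 6)) .nil)  (.conc
  3 8 1) .nil .nil  (.conc 3 8 1)  (.slot  [.seta 10, .addP 24, .swp, .seta 16, .addP 38, .swp, .sym, .addA,
  .mix, .swp, .addA, .sym, .swp]  (.contra  [.seta 1, .addP 8, .sym, .addP 82, .swp])  (.contra  [.seta 1,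
  .addP 8, .sym, .addP 82, .swp])  (.pure  [.seta 1, .addP 8, .sym, .addP 82, .swp]  (.split  [.seta 44, .addP
  64, .swp, .seta 8, .addP 83, .swp, .mix, .swp, .sym] .nil  (.thin 36 3 2) .nil  (.thin 19 7 5)  (.split 
  [.seta 7, .addP 16, .swp, .seta 27, .addP 32, .sym, .addA, .sym, .mix, .swp, .sym, .addA, .sym] .nil  (.thin
  55 7 4)  (.split  [.seta 3, .addP 5, .swp, .seta 13, .addP 30, .addA, .mix, .swp, .sym, .swp, .mix] .nil
  .nil  (.thin 24 1 2)  (.split  [.seta 3, .addP 5, .swp, .seta 13, .addP 30, .sym, .addA, .mix, .swp, .sym,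
  .swp, .mix, .addA] .nil .nil  (.thin 11 6 2)  (.split  [.seta 11, .addP 56, .swp, .seta 8, .addP 82, .swp,
  .sym, .swp, .mix, .addA, .swp, .sym]  (.split  [.seta 13, .addP 30, .swp, .seta 11, .addP 56, .addA, .mix,
  .swp, .sym, .addA, .swp, .addA]  (.thin 6 7 1)  (.thin 6 6 1) .nil .nil .nil .nil  (.split  [.seta 3, .addP
  5, .swp, .seta 8, .addP 82, .swp, .addA, .sym, .mix, .swp, .sym, .mix, .swp] .nil  (.split  [.seta 13, .addP
  30, .swp, .seta 16, .addP 38, .swp, .sym, .swp, .addA, .sym, .mix, .swp, .addA, .sym]  (.thin 3 6 1) .nil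
  .nil  (.thin 3 5 1)  (.conc 40 19 6) .nil .nil  (.split  [.seta 13, .addP 30, .swp, .seta 8, .addP 82, .swp,
  .mix, .swp, .sym, .swp] .nil  (.thin 5 7 2) .nil  (.thin 5 5 2) .nil  (.conc 73 24 2) .nil  (.split  [.seta
  7, .addP 16, .swp, .seta 36, .addP 80, .swp, .mix, .swp, .sym, .addA, .sym, .swp]  (.split  [.seta 3, .addP
  5, .swp, .seta 27, .addP 32, .mix, .swp, .sym, .addA]  (.conc 37 1 4) .nil  (.conc 61 89 2) .nil  (.conc 61
  1 4) .nil  (.conc 37 81 2) .nil) .nil .nil  (.conc 35 24 6)  (.conc 35 3 1) .nil .nil  (.conc 100 40 5)))) 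
  (.conc 95 43 6) .nil .nil  (.thin 14 2 3)  (.thin 14 1 3) .nil)  (.conc 45 89 2)) .nil .nil  (.conc 48 8 5) 
  (.conc 48 3 2) .nil .nil  (.conc 105 29 6))  (.thin 22 4 3)  (.thin 11 1 2) .nil .nil) .nil .nil  (.thin 24
  5 2)  (.conc 22 8 5)) .nil .nil  (.thin 55 3 4)  (.thin 11 6 2) .nil) .nil  (.thin 19 2 5) .nil))  (.pure 
  [.seta 1, .addP 8, .sym, .addP 82, .swp]  (.split  [.seta 13, .addP 30, .swp, .seta 8, .addP 83, .swp, .sym,
  .addA, .mix, .swp, .sym, .swp, .addA] .nil  (.thin 64 5 1)  (.thin 64 6 1) .nil .nil  (.conc 22 13 6) 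
  (.conc 22 8 5) .nil))  (.contra  [.seta 1, .addP 8, .sym, .addP 82, .swp])  (.contra  [.seta 1, .addP 8,
  .sym, .addP 82, .swp])  (.split  [.seta 3, .addP 5, .swp, .seta 8, .addP 82, .addA, .sym, .mix, .swp, .sym,
  .addA, .sym] .nil  (.conc 14 5 2)  (.conc 14 6 1) .nil .nil  (.split  [.seta 3, .addP 5, .swp, .seta 16,
  .addP 38, .swp, .sym, .addA, .sym, .swp, .mix, .swp, .sym, .mix] .nil  (.conc 22 8 5) .nil  (.conc 22 8 5)
  .nil  (.split  [.seta 3, .addP 5, .swp, .seta 13, .addP 30, .addA, .mix, .swp, .sym, .swp, .mix] .nil .nil 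
  (.thin 24 1 2)  (.split  [.seta 3, .addP 5, .swp, .seta 8, .addP 82, .swp, .sym, .addA, .mix, .swp, .addA,
  .sym, .swp] .nil  (.conc 81 8 1) .nil  (.thin 13 1 3) .nil  (.thin 13 7 3) .nil  (.split  [.seta 1, .addP 8,
  .swp, .seta 36, .addP 80, .swp, .sym, .swp, .mix, .swp, .addA, .sym] .nil .nil  (.thin 89 6 1)  (.thin 89 7
  1)  (.split  [.seta 13, .addP 30, .swp, .seta 8, .addP 82, .sym, .mix, .swp, .sym, .addA] .nil  (.thin 22 6
  3)  (.thin 22 5 3) .nil .nil  (.split  [.seta 7, .addP 16, .swp, .seta 44, .addP 64, .swp, .sym, .swp, .mix,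
  .swp, .sym]  (.split  [.seta 7, .addP 16, .swp, .seta 27, .addP 32, .sym, .addA, .sym, .mix, .swp, .sym,
  .addA, .sym] .nil  (.thin 60 7 6)  (.split  [.seta 7, .addP 16, .swp, .seta 44, .addP 64, .swp, .addA, .sym,
  .swp, .mix, .swp, .sym] .nil  (.conc 124 32 1)  (.conc 71 27 1) .nil .nil  (.thin 59 3 6)  (.split  [.seta
  3, .addP 5, .swp, .seta 11, .addP 56, .mix, .addA, .swp, .sym, .addA] .nil .nil  (.conc 53 89 2)  (.conc 53
  2 4) .nil .nil  (.conc 53 73 6)  (.conc 61 1 4)) .nil) .nil .nil  (.conc 55 27 6)  (.thin 11 6 2) .nil) 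
  (.conc 71 27 1)  (.conc 123 14 5)  (.conc 60 73 5) .nil .nil .nil .nil)  (.conc 95 51 2) .nil)  (.thin 44 3
  4) .nil .nil)) .nil .nil  (.thin 24 5 2)  (.thin 22 7 3)) .nil  (.conc 53 89 2))  (.conc 87 59 6) .nil) 
  (.pure  [.seta 1, .addP 8, .sym, .addP 82, .swp]  (.split  [.seta 13, .addP 30, .swp, .seta 8, .addP 83,
  .swp, .sym, .mix, .swp, .sym, .mix, .addA, .swp] .nil  (.conc 72 8 5)  (.conc 72 8 5) .nil .nil  (.conc 22
  13 6)  (.conc 22 8 5) .nil))) .nil) .nil  (.split  [.seta 3, .addP 5, .swp, .seta 1, .addP 8, .swp, .sym,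
  .swp, .mix, .swp, .sym, .addA] .nil .nil  (.conc 11 2 4)  (.conc 15 2 4)  (.conc 15 2 4)  (.conc 11 2 4)
  .nil .nil) .nil  (.slot  [.seta 3, .addP 5, .swp, .seta 1, .addP 8, .swp, .mix, .swp, .sym, .addA, .sym,
  .swp, .mix] .nil  (.forb 2 1)  (.slot  [.seta 1, .addP 8, .swp, .seta 12, .addP 40, .sym, .swp, .addA, .mix,
  .addA, .swp, .sym, .addA]  (.contra  [.seta 3, .addP 5, .sym, .addP 109, .swp]) .nil  (.contra  [.seta 3,
  .addP 5, .sym, .addP 109, .swp]) .nil .nil  (.split  [.seta 3, .addP 5, .swp, .seta 1, .addP 8, .sym, .swp,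
  .addA, .mix, .swp, .sym, .mix, .swp] .nil  (.thin 12 5 2) .nil  (.thin 12 7 2)  (.split  [.seta 3, .addP 5,
  .swp, .seta 1, .addP 8, .mix, .swp, .sym, .swp, .mix, .swp]  (.split  [.seta 3, .addP 5, .swp, .seta 14,
  .addP 37, .swp, .sym, .swp, .mix, .swp, .addA, .sym, .swp, .mix]  (.thin 40 3 2) .nil  (.thin 40 1 2) .nil
  .nil  (.split  [.seta 3, .addP 5, .swp, .seta 41, .addP 96, .swp, .sym, .swp, .mix, .swp, .sym, .addA] .nil 
  (.conc 79 15 3) .nil  (.conc 99 11 2)  (.conc 79 35 6) .nil  (.conc 99 14 3) .nil) .nil  (.conc 35 7 4))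
  .nil .nil  (.thin 13 4 2)  (.thin 13 3 2) .nil .nil  (.thin 2 7 4)) .nil  (.thin 7 6 4) .nil) .nil  (.pure 
  [.seta 3, .addP 5, .sym, .addP 109, .swp]  (.split  [.seta 3, .addP 5, .swp, .seta 1, .addP 8, .sym, .swp,
  .addA, .mix, .swp, .sym, .mix, .swp] .nil  (.thin 12 5 2) .nil  (.thin 12 7 2)  (.split  [.seta 3, .addP 5,
  .swp, .seta 1, .addP 8, .mix, .swp, .sym, .swp, .mix, .swp]  (.split  [.seta 3, .addP 5, .swp, .seta 13,
  .addP 30, .sym, .addA, .sym, .mix, .swp, .sym, .addA, .mix] .nil .nil  (.split  [.seta 3, .addP 5, .swp,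
  .seta 13, .addP 30, .swp, .sym, .mix, .swp, .sym, .addA, .mix, .swp]  (.thin 8 7 1) .nil .nil  (.split 
  [.seta 3, .addP 5, .swp, .seta 10, .addP 24, .swp, .sym, .swp, .mix, .swp, .sym, .addA, .sym]  (.thin 30 3
  5) .nil  (.thin 30 1 5) .nil  (.split  [.seta 3, .addP 5, .swp, .seta 14, .addP 37, .swp, .sym, .swp, .mix,
  .swp, .addA, .sym, .swp, .mix]  (.thin 40 3 2) .nil  (.thin 40 1 2) .nil .nil  (.split  [.seta 3, .addP 5,
  .swp, .seta 44, .addP 64, .swp, .sym, .swp, .mix, .swp, .sym] .nil  (.thin 41 6 2) .nil  (.thin 41 4 2) .nil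
   (.split  [.seta 1, .addP 8, .swp, .seta 10, .addP 24, .swp, .sym, .swp, .mix, .swp, .sym, .mix] .nil .nil 
  (.thin 27 6 2)  (.thin 27 7 2)  (.split  [.seta 1, .addP 8, .swp, .seta 14, .addP 37, .swp, .sym, .swp,
  .mix, .swp, .addA, .sym, .swp]  (.thin 44 4 1)  (.thin 44 5 1)  (.conc 42 3 2)  (.split  [.seta 1, .addP 8,
  .swp, .seta 2, .addP 32, .swp, .addA, .sym, .swp, .mix, .swp, .sym] .nil  (.conc 33 9 4) .nil  (.conc 33 2
  6) .nil  (.thin 42 5 3) .nil  (.split  [.seta 3, .addP 5, .swp, .seta 12, .addP 40, .swp, .mix, .swp, .sym,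
  .addA, .sym, .swp, .mix]  (.conc 46 11 5)  (.thin 33 7 2) .nil .nil .nil .nil  (.conc 46 5 3)  (.split 
  [.seta 3, .addP 5, .swp, .seta 12, .addP 40, .sym, .addA, .sym, .mix, .swp, .addA, .sym]  (.thin 46 3 6)
  .nil .nil  (.conc 39 14 5) .nil  (.split  [.seta 3, .addP 5, .swp, .seta 12, .addP 40, .sym, .addA, .sym,
  .mix, .swp, .sym]  (.conc 45 6 3) .nil .nil  (.thin 39 5 3)  (.split  [.seta 1, .addP 8, .swp, .seta 5,
  .addP 109, .swp, .sym, .swp, .mix, .swp, .sym, .mix, .swp]  (.thin 13 4 2)  (.conc 97 11 5)  (.thin 13 6 2) 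
  (.conc 97 13 7)  (.thin 108 4 6)  (.thin 13 1 2)  (.split  [.seta 1, .addP 8, .swp, .seta 110, .addP 5,
  .swp, .sym, .addA, .sym, .mix, .swp, .sym, .addA]  (.thin 13 6 2) .nil  (.thin 13 4 2) .nil  (.thin 106 4 5)
  .nil  (.split  [.seta 13, .addP 30, .swp, .seta 14, .addP 37, .sym, .addA, .mix, .swp, .sym, .mix, .addA]
  .nil .nil .nil .nil  (.conc 53 17 4)  (.thin 40 5 2)  (.split  [.seta 13, .addP 30, .swp, .seta 12, .addP
  40, .sym, .addA, .sym, .mix, .swp, .sym]  (.conc 54 3 1) .nil .nil  (.split  [.seta 13, .addP 30, .swp,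
  .seta 5, .addP 109, .addA, .mix, .addA, .swp, .sym] .nil .nil  (.conc 118 17 4)  (.conc 118 54 6)  (.conc
  126 25 4)  (.split  [.seta 13, .addP 30, .swp, .seta 44, .addP 64, .mix, .swp, .sym] .nil .nil .nil .nil 
  (.conc 94 53 1)  (.conc 127 1 5)  (.split  [.seta 13, .addP 30, .swp, .seta 110, .addP 5, .sym, .addA, .sym,
  .mix, .swp, .sym, .mix, .addA]  (.conc 102 1 4)  (.split  [.seta 13, .addP 30, .swp, .seta 110, .addP 5,
  .sym, .mix, .addA, .sym, .swp, .sym]  (.conc 112 14 5) .nil .nil  (.conc 112 16 7) .nil  (.thin 102 1 5) 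
  (.split  [.seta 13, .addP 30, .swp, .seta 110, .addP 5, .sym, .mix, .addA, .swp, .sym]  (.thin 112 5 3) .nil
  .nil  (.thin 112 6 3)  (.thin 8 3 1) .nil .nil  (.split  [.seta 10, .addP 24, .swp, .seta 41, .addP 96,
  .mix, .swp, .sym, .addA, .sym, .swp, .mix]  (.split  [.seta 1, .addP 8, .swp, .seta 41, .addP 96, .swp,
  .sym, .mix, .addA, .sym, .swp, .mix, .sym, .addA]  (.thin 97 1 2)  (.conc 65 16 7) .nil .nil .nil .nil 
  (.thin 97 7 2)  (.conc 65 16 7)) .nil  (.conc 114 10 2) .nil  (.conc 81 15 3) .nil  (.conc 81 15 3) .nil))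
  .nil) .nil .nil  (.thin 27 4 2)  (.conc 102 8 1) .nil .nil)  (.conc 127 17 1)) .nil .nil) .nil  (.thin 41 3
  2)  (.conc 54 21 7) .nil)  (.thin 40 7 2)) .nil)  (.thin 13 3 2)) .nil .nil  (.conc 45 6 3))  (.thin 46 5 6)
  .nil))) .nil .nil .nil .nil)  (.forb 2 1) .nil .nil) .nil  (.conc 106 35 7)) .nil  (.conc 35 7 4)) .nil 
  (.thin 15 6 4) .nil)  (.thin 8 3 1) .nil .nil  (.conc 21 5 3))  (.thin 11 3 2) .nil .nil  (.thin 11 6 2) 
  (.thin 16 5 3)) .nil .nil  (.thin 13 4 2)  (.thin 13 3 2) .nil .nil  (.thin 2 7 4)) .nil  (.thin 7 6 4)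
  .nil))) .nil  (.slot  [.seta 3, .addP 5, .swp, .seta 2, .addP 32, .sym, .addA, .sym, .mix, .swp, .sym,
  .addA, .sym]  (.split  [.seta 3, .addP 5, .swp, .seta 1, .addP 8, .mix, .swp, .sym, .swp, .mix, .swp] 
  (.split  [.seta 3, .addP 5, .swp, .seta 14, .addP 37, .swp, .mix, .swp, .sym, .swp, .addA, .mix]  (.conc 45
  15 4) .nil  (.split  [.seta 3, .addP 5, .swp, .seta 14, .addP 37, .sym, .swp, .mix, .swp, .sym, .mix, .addA]
   (.thin 45 4 6) .nil  (.split  [.seta 1, .addP 8, .swp, .seta 7, .addP 64, .mix, .swp, .sym]  (.conc 72 11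
  5) .nil .nil  (.conc 72 45 6)  (.conc 72 11 5) .nil .nil  (.conc 72 45 6)) .nil .nil  (.thin 38 1 3) .nil 
  (.thin 45 3 6)) .nil  (.thin 13 4 2) .nil  (.conc 45 13 2) .nil) .nil .nil  (.thin 13 4 2)  (.thin 13 3 2)
  .nil .nil  (.thin 2 7 4))  (.contra  [.seta 7, .addP 16, .addP 64, .swp]) .nil .nil  (.split  [.seta 3,
  .addP 5, .swp, .seta 1, .addP 8, .mix, .swp, .sym, .swp, .mix, .swp]  (.split  [.seta 3, .addP 5, .swp,
  .seta 10, .addP 24, .swp, .sym, .swp, .mix, .swp, .sym, .addA, .sym]  (.thin 30 3 5) .nil  (.thin 30 1 5)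
  .nil  (.split  [.seta 3, .addP 5, .swp, .seta 14, .addP 37, .swp, .mix, .swp, .sym, .swp, .addA, .mix] 
  (.conc 45 15 4) .nil  (.split  [.seta 3, .addP 5, .swp, .seta 2, .addP 32, .addA, .mix, .swp, .sym, .swp,
  .addA, .mix]  (.split  [.seta 3, .addP 5, .swp, .seta 14, .addP 37, .sym, .swp, .addA, .mix, .addA, .swp,
  .sym]  (.thin 38 4 1)  (.thin 38 5 1) .nil .nil  (.conc 46 9 4)  (.split  [.seta 3, .addP 5, .swp, .seta 12,
  .addP 40, .swp, .mix, .swp, .sym, .addA, .sym, .swp, .mix]  (.thin 46 1 5) .nil  (.thin 46 3 5) .nil 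
  (.split  [.seta 1, .addP 8, .swp, .seta 2, .addP 32, .swp, .addA, .sym, .swp, .mix, .swp, .sym] .nil .nil 
  (.thin 33 7 4)  (.thin 33 6 4)  (.split  [.seta 1, .addP 8, .swp, .seta 38, .addP 101, .swp, .mix, .swp,
  .sym, .swp, .mix, .swp]  (.conc 109 45 7) .nil  (.thin 39 2 4) .nil  (.split  [.seta 13, .addP 30, .swp,
  .seta 14, .addP 37, .mix, .swp, .sym, .swp, .mix, .addA] .nil  (.split  [.seta 14, .addP 37, .swp, .seta 38,
  .addP 101, .swp, .sym, .swp, .mix, .swp, .sym, .mix]  (.thin 3 4 1)  (.thin 3 5 1) .nil .nil  (.conc 107 6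
  3)  (.split  [.seta 14, .addP 37, .swp, .seta 7, .addP 64, .addA, .mix, .swp, .sym, .swp, .addA, .mix] 
  (.split  [.seta 3, .addP 5, .swp, .seta 38, .addP 101, .addA, .sym, .mix, .swp, .sym, .addA, .mix]  (.conc
  99 1 4) .nil  (.conc 99 8 5) .nil  (.thin 64 6 3) .nil  (.split  [.seta 3, .addP 5, .swp, .seta 38, .addP
  101, .addA, .mix, .swp, .sym, .swp, .mix, .addA]  (.thin 99 4 2) .nil  (.thin 99 6 2) .nil .nil  (.split 
  [.seta 10, .addP 24, .swp, .seta 7, .addP 64, .swp, .sym, .addA, .sym, .mix, .swp, .sym]  (.conc 88 30 7)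
  .nil  (.conc 88 59 1) .nil  (.conc 88 30 7) .nil  (.conc 88 59 1) .nil) .nil  (.conc 70 6 3)) .nil) .nil 
  (.thin 9 2 1) .nil  (.thin 107 6 5) .nil  (.thin 107 4 5) .nil) .nil .nil) .nil  (.conc 59 17 4) .nil 
  (.thin 3 5 1) .nil  (.thin 3 7 1)) .nil  (.conc 109 42 4) .nil)  (.conc 11 3 1) .nil .nil) .nil  (.conc 33 6
  3) .nil) .nil .nil) .nil .nil  (.thin 38 4 1)  (.thin 38 3 1) .nil .nil  (.thin 1 7 4)) .nil  (.thin 13 4 2)
  .nil  (.conc 45 13 2) .nil) .nil  (.thin 15 6 4) .nil) .nil .nil  (.thin 13 4 2)  (.thin 13 3 2) .nil .nil 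
  (.thin 2 7 4))  (.contra  [.seta 7, .addP 16, .addP 64, .swp]) .nil .nil) .nil .nil  (.thin 2 4 5)) .nil 
  (.slot  [.seta 1, .addP 8, .swp, .seta 7, .addP 16, .sym, .addA, .sym, .mix, .swp, .sym, .addA, .sym] 
  (.split  [.seta 3, .addP 5, .swp, .seta 1, .addP 8, .swp, .sym, .swp, .mix, .swp, .sym, .addA] .nil .nil 
  (.conc 11 1 4)  (.conc 11 18 2)  (.conc 11 18 2)  (.conc 11 1 4) .nil .nil)  (.conc 6 9 1) .nil .nil .nil
  .nil  (.conc 6 9 1)  (.slot  [.seta 13, .addP 30, .swp, .seta 15, .addP 32, .addA, .mix, .swp, .sym, .swp,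
  .addA, .mix]  (.split  [.seta 3, .addP 5, .swp, .seta 13, .addP 30, .addA, .mix, .swp, .sym, .swp, .mix]
  .nil  (.thin 22 7 1) .nil  (.split  [.seta 3, .addP 5, .swp, .seta 13, .addP 30, .sym, .addA, .sym, .mix,
  .swp, .sym, .addA, .mix] .nil .nil  (.split  [.seta 3, .addP 5, .swp, .seta 1, .addP 8, .sym, .swp, .addA,
  .mix, .swp, .sym, .mix, .swp] .nil  (.thin 7 1 5) .nil  (.conc 12 23 3)  (.thin 7 4 5) .nil  (.split  [.seta
  1, .addP 8, .swp, .seta 7, .addP 16, .mix, .swp, .sym, .addA, .sym]  (.thin 25 2 5) .nil  (.thin 6 4 1) .nil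
   (.split  [.seta 3, .addP 5, .swp, .seta 13, .addP 30, .sym, .addA, .mix, .swp, .sym, .swp, .mix, .addA]
  .nil  (.conc 11 1 4)  (.split  [.seta 3, .addP 5, .swp, .seta 25, .addP 56, .sym, .swp, .addA, .mix, .swp,
  .sym, .mix, .swp]  (.conc 59 29 1) .nil  (.thin 31 2 4) .nil .nil  (.split  [.seta 10, .addP 24, .swp, .seta
  22, .addP 48, .sym, .swp, .mix, .swp, .sym, .mix, .swp] .nil  (.thin 14 1 3) .nil  (.split  [.seta 3, .addP
  5, .swp, .seta 15, .addP 32, .sym, .addA, .sym, .mix, .swp, .sym, .addA, .sym] .nil  (.thin 38 7 1)  (.split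
   [.seta 3, .addP 5, .swp, .seta 25, .addP 56, .swp, .mix, .swp, .sym, .addA, .sym, .swp, .mix]  (.conc 62 18
  6) .nil .nil  (.conc 62 5 2)  (.conc 62 5 2) .nil .nil  (.conc 62 18 6)) .nil .nil  (.thin 38 3 1)  (.split 
  [.seta 3, .addP 5, .swp, .seta 1, .addP 8, .mix, .swp, .sym, .mix, .addP 32, .sym, .addA, .sym, .swp, .mix,
  .addA] .nil .nil  (.split  [.seta 25, .addP 56, .swp, .seta 22, .addP 48, .sym, .addA, .sym, .mix, .swp,
  .addA, .sym]  (.conc 17 6 3) .nil .nil  (.thin 46 3 4)  (.split  [.seta 3, .addP 5, .swp, .seta 1, .addP 8,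
  .mix, .swp, .sym, .mix, .addP 32, .sym, .addA, .sym, .swp, .mix, .sym] .nil  (.split  [.seta 7, .addP 16,
  .swp, .seta 22, .addP 48, .addA, .mix, .swp, .sym, .mix, .addA, .swp]  (.thin 39 7 1)  (.thin 39 6 1) .nil
  .nil .nil .nil  (.split  [.seta 3, .addP 5, .swp, .seta 22, .addP 48, .addA, .mix, .swp, .sym, .addA, .swp,
  .addA]  (.conc 35 23 3) .nil  (.thin 54 2 6) .nil .nil  (.split  [.seta 3, .addP 5, .swp, .seta 1, .addP 8,
  .mix, .swp, .sym, .mix, .addP 32, .swp, .sym, .swp, .sym, .addA, .mix, .addA, .swp] .nil  (.thin 35 1 2)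
  .nil  (.thin 35 3 2)  (.conc 40 24 4) .nil  (.split  [.seta 1, .addP 8, .swp, .seta 25, .addP 56, .swp,
  .sym, .swp, .mix, .swp, .sym, .mix, .addA, .swp]  (.thin 40 7 6)  (.split  [.seta 10, .addP 24, .swp, .seta
  25, .addP 56, .sym, .swp, .addA, .mix, .addA, .swp, .sym]  (.conc 50 2 4) .nil  (.thin 57 2 1) .nil .nil 
  (.split  [.seta 10, .addP 24, .swp, .seta 15, .addP 32, .mix, .swp, .sym, .addA, .sym, .swp, .mix] .nil 
  (.split  [.seta 3, .addP 5, .swp, .seta 1, .addP 8, .mix, .swp, .sym, .swp, .mix, .swp]  (.split  [.seta 3,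
  .addP 5, .swp, .seta 51, .addP 109, .swp, .addA, .mix, .swp, .sym, .addA]  (.thin 48 2 4)  (.thin 48 3 4) 
  (.split  [.seta 3, .addP 5, .swp, .seta 49, .addP 96, .sym, .swp, .addA, .mix, .swp, .sym, .mix, .swp] .nil 
  (.thin 55 1 6) .nil  (.thin 55 3 6)  (.conc 84 15 3) .nil  (.conc 99 56 3) .nil)  (.split  [.seta 3, .addP
  5, .swp, .seta 49, .addP 96, .sym, .swp, .addA, .mix, .swp, .sym, .mix, .swp] .nil  (.thin 55 1 6) .nil 
  (.thin 55 3 6)  (.conc 84 15 3) .nil  (.conc 99 56 3) .nil) .nil .nil .nil .nil) .nil .nil  (.forb 2 1) 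
  (.split  [.seta 3, .addP 5, .swp, .seta 10, .addP 24, .swp, .sym, .swp, .mix, .swp, .sym, .addA, .sym] .nil 
  (.split  [.seta 3, .addP 5, .swp, .seta 51, .addP 109, .swp, .addA, .mix, .swp, .sym, .addA]  (.thin 48 2 4)
   (.thin 48 3 4)  (.split  [.seta 3, .addP 5, .swp, .seta 49, .addP 96, .sym, .swp, .addA, .mix, .swp, .sym,
  .mix, .swp] .nil  (.thin 55 1 6) .nil  (.thin 55 3 6)  (.conc 84 15 3) .nil  (.conc 99 56 3) .nil)  (.split 
  [.seta 3, .addP 5, .swp, .seta 49, .addP 96, .sym, .swp, .addA, .mix, .swp, .sym, .mix, .swp] .nil  (.thin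
  55 1 6) .nil  (.thin 55 3 6)  (.conc 84 15 3) .nil  (.conc 99 56 3) .nil) .nil .nil .nil .nil) .nil  (.conc
  15 2 6)  (.conc 15 2 6) .nil  (.split  [.seta 3, .addP 5, .swp, .seta 51, .addP 109, .swp, .addA, .mix,
  .swp, .sym, .addA]  (.thin 48 2 4)  (.thin 48 3 4)  (.split  [.seta 3, .addP 5, .swp, .seta 49, .addP 96,
  .sym, .swp, .addA, .mix, .swp, .sym, .mix, .swp] .nil  (.thin 55 1 6) .nil  (.thin 55 3 6)  (.conc 84 15 3)
  .nil  (.conc 99 56 3) .nil)  (.split  [.seta 3, .addP 5, .swp, .seta 49, .addP 96, .sym, .swp, .addA, .mix,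
  .swp, .sym, .mix, .swp] .nil  (.thin 55 1 6) .nil  (.thin 55 3 6)  (.conc 84 15 3) .nil  (.conc 99 56 3)
  .nil) .nil .nil .nil .nil) .nil) .nil .nil  (.thin 2 7 4)) .nil  (.split  [.seta 3, .addP 5, .swp, .seta 1,
  .addP 8, .mix, .swp, .sym, .swp, .mix, .swp]  (.split  [.seta 3, .addP 5, .swp, .seta 51, .addP 109, .swp,
  .addA, .mix, .swp, .sym, .addA]  (.thin 48 2 4)  (.thin 48 3 4)  (.split  [.seta 3, .addP 5, .swp, .seta 49,
  .addP 96, .sym, .swp, .addA, .mix, .swp, .sym, .mix, .swp] .nil  (.thin 55 1 4) .nil  (.thin 55 3 4)  (.conc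
  84 15 3) .nil  (.conc 99 56 3) .nil)  (.split  [.seta 3, .addP 5, .swp, .seta 49, .addP 96, .sym, .swp,
  .addA, .mix, .swp, .sym, .mix, .swp] .nil  (.thin 55 1 4) .nil  (.thin 55 3 4)  (.conc 84 15 3) .nil  (.conc
  99 56 3) .nil) .nil .nil .nil .nil) .nil .nil  (.forb 2 1)  (.split  [.seta 3, .addP 5, .swp, .seta 10,
  .addP 24, .swp, .sym, .swp, .mix, .swp, .sym, .addA, .sym] .nil  (.split  [.seta 3, .addP 5, .swp, .seta 51,
  .addP 109, .swp, .addA, .mix, .swp, .sym, .addA]  (.thin 48 2 4)  (.thin 48 3 4)  (.split  [.seta 3, .addP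
  5, .swp, .seta 49, .addP 96, .sym, .swp, .addA, .mix, .swp, .sym, .mix, .swp] .nil  (.thin 55 1 4) .nil 
  (.thin 55 3 4)  (.conc 84 15 3) .nil  (.conc 99 56 3) .nil)  (.split  [.seta 3, .addP 5, .swp, .seta 49,
  .addP 96, .sym, .swp, .addA, .mix, .swp, .sym, .mix, .swp] .nil  (.thin 55 1 4) .nil  (.thin 55 3 4)  (.conc
  84 15 3) .nil  (.conc 99 56 3) .nil) .nil .nil .nil .nil) .nil  (.conc 15 2 6)  (.conc 15 2 6) .nil  (.split
   [.seta 3, .addP 5, .swp, .seta 51, .addP 109, .swp, .addA, .mix, .swp, .sym, .addA]  (.thin 48 2 4)  (.thin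
  48 3 4)  (.split  [.seta 3, .addP 5, .swp, .seta 49, .addP 96, .sym, .swp, .addA, .mix, .swp, .sym, .mix,
  .swp] .nil  (.thin 55 1 4) .nil  (.thin 55 3 4)  (.conc 84 15 3) .nil  (.conc 99 56 3) .nil)  (.split 
  [.seta 3, .addP 5, .swp, .seta 49, .addP 96, .sym, .swp, .addA, .mix, .swp, .sym, .mix, .swp] .nil  (.thin
  55 1 4) .nil  (.thin 55 3 4)  (.conc 84 15 3) .nil  (.conc 99 56 3) .nil) .nil .nil .nil .nil) .nil) .nil
  .nil  (.thin 2 7 4))  (.thin 50 6 2) .nil  (.thin 50 4 2) .nil) .nil  (.thin 57 7 1)) .nil .nil .nil .nil 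
  (.thin 40 1 6)  (.conc 57 6 3)) .nil) .nil  (.thin 54 7 6))  (.conc 54 24 4)) .nil  (.conc 39 6 3)  (.thin
  44 7 1) .nil  (.thin 44 5 1) .nil) .nil .nil  (.conc 17 6 3))  (.forb 2 1) .nil .nil  (.thin 44 5 1)  (.thin
  44 4 1)) .nil)  (.thin 14 4 3) .nil  (.conc 52 12 6) .nil) .nil  (.thin 31 7 4)) .nil  (.conc 11 3 1) .nil
  .nil  (.conc 29 2 4)) .nil  (.thin 25 4 5) .nil) .nil)  (.conc 11 3 1) .nil .nil  (.conc 11 1 4)  (.conc 27
  2 6))  (.thin 24 1 4) .nil  (.thin 24 3 4) .nil)  (.forb 2 1)  (.split  [.seta 3, .addP 5, .swp, .seta 22,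
  .addP 48, .swp, .addA, .mix, .swp, .addA, .sym, .swp, .mix] .nil .nil  (.split  [.seta 3, .addP 5, .swp,
  .seta 51, .addP 109, .swp, .addA, .mix, .swp, .addA, .sym]  (.thin 48 2 4)  (.thin 48 3 4)  (.split  [.seta
  1, .addP 8, .swp, .seta 25, .addP 56, .mix, .swp, .addA, .sym, .addP 96, .sym, .addA, .sym, .swp, .addA,
  .mix, .swp]  (.conc 80 56 3)  (.thin 24 1 4)  (.conc 72 32 3)  (.thin 24 3 4) .nil .nil .nil .nil)  (.split 
  [.seta 1, .addP 8, .swp, .seta 25, .addP 56, .mix, .swp, .addA, .sym, .addP 96, .sym, .addA, .sym, .swp,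
  .addA, .mix, .swp]  (.conc 80 56 3)  (.thin 24 1 4)  (.conc 72 32 3)  (.thin 24 3 4) .nil .nil .nil .nil)
  .nil .nil .nil .nil)  (.conc 32 1 5)  (.conc 32 1 5)  (.split  [.seta 3, .addP 5, .swp, .seta 51, .addP 109,
  .swp, .addA, .mix, .swp, .addA, .sym]  (.thin 48 2 4)  (.thin 48 3 4)  (.split  [.seta 1, .addP 8, .swp,
  .seta 25, .addP 56, .mix, .swp, .addA, .sym, .addP 96, .sym, .addA, .sym, .swp, .addA, .mix, .swp]  (.conc
  80 56 3)  (.thin 24 1 4)  (.conc 72 32 3)  (.thin 24 3 4) .nil .nil .nil .nil)  (.split  [.seta 1, .addP 8,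
  .swp, .seta 25, .addP 56, .mix, .swp, .addA, .sym, .addP 96, .sym, .addA, .sym, .swp, .addA, .mix, .swp] 
  (.conc 80 56 3)  (.thin 24 1 4)  (.conc 72 32 3)  (.thin 24 3 4) .nil .nil .nil .nil) .nil .nil .nil .nil)
  .nil .nil)  (.forb 2 1)  (.split  [.seta 1, .addP 8, .swp, .seta 49, .addP 96, .sym, .addA, .sym, .mix,
  .swp, .sym] .nil  (.thin 56 1 3)  (.conc 80 56 3) .nil  (.conc 104 5 2) .nil .nil  (.conc 80 56 6))  (.thin
  2 4 5)  (.split  [.seta 7, .addP 16, .swp, .seta 49, .addP 96, .swp, .sym, .addA, .sym, .swp, .mix, .swp,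
  .sym, .addA] .nil .nil  (.thin 38 3 1)  (.thin 38 2 1) .nil .nil  (.conc 112 48 4)  (.thin 38 6 1))  (.thin
  2 4 5))) .nil)

set_option maxRecDepth 100000 in
theorem check3 : check cert3 st3 = true := by decide +kernel

set_option maxRecDepth 100000 in
theorem check4 : check cert4 st4 = true := by decide +kernel

end Pool.Agent.Codim3
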