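import Mathlib

/-!
A verified checker for refutations by linkage (problem MP_d26ff6_al).

`LD V Q`: a linked pairing `q : V × V → Q` with `q (x, x) = 0` on a group `V` of exponent two (a quaternionic
structure with `-1 = 1`, written additively). `En S`: a biadditive symmetric map `om : V × V → F_2` (Boolean valued) and
an additive map `c` from `V` to `F_2^3` (coded by the numbers `0, ..., 7`) such that for all `x, y` with
`q (x, y) = 0` the value `om (x, y)` is `1` if `c x` and `c y` are independent and `0` otherwise.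
-/

namespace Pool.Agent.Codim3

/-- linked pairings -/
structure LD (V Q : Type) [AddCommGroup V] where
  q : V → V → Q
  z : Q
  two : ∀ x : V, x + x = 0
  self : ∀ x, q x x = z
  symm : ∀ x y, q x y = q y x
  add : ∀ x y w, q x y = q x w ↔ q x (y + w) = z
  link : ∀ a b c d, q a b = q c d → ∃ t, q a b = q a t ∧ q c d = q c t

variable {V Q : Type} [AddCommGroup V]

/-- independence of two vectors of `F_2^3` -/
def ind (a b : ℕ) : Bool := !(Nat.beq a 0) && (!(Nat.beq b 0) && !(Nat.beq a b))

/-- independence of three vectors of `F_2^3` -/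
def ind3 (a b r : ℕ) : Bool := ind a b && (ind a r && (ind b r && !(Nat.beq (a ^^^ b) r)))

/-- enemies -/
structure En (S : LD V Q) where
  om : V → V → Bool
  om_add : ∀ x y y', om x (y + y') = (om x y ^^ om x y')
  om_symm : ∀ x y, om x y = om y x
  c : V → ℕ
  c_lt : ∀ x, c x < 8
  c_add : ∀ x y, c (x + y) = c x ^^^ c y
  pure : ∀ x y, S.q x y = S.z → om x y = ind (c x) (c y)

namespace LD

variable (S : LD V Q)

theorem q_zero (x : V) : S.q x 0 = S.z := by
  have h := (S.add x x x).1 rfl
  rwa [S.two] at h

theorem zero_q (x : V) : S.q 0 x = S.z := by rw [S.symm, S.q_zero]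

include S in
theorem cancel (x y : V) : x + (x + y) = y := by rw [← add_assoc, S.two, zero_add]

include S in
theorem cancel' (x y : V) : x + y + y = x := by rw [add_assoc, S.two, add_zero]

variable {S}

theorem add_pure {a b w : V} (h : S.q a w = S.z) : S.q a (b + w) = S.q a b := by
  rw [S.add, show b + w + b = w + (b + b) by abel, S.two, add_zero, h]

theorem pure_add {a b w : V} (h : S.q a b = S.z) (h' : S.q a w = S.z) : S.q a (b + w) = S.z := by
  rw [add_pure h', h]

theorem add_pure' {a b w : V} (h : S.q w b = S.z) : S.q (a + w) b = S.q a b := by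
  rw [S.symm, add_pure (by rw [S.symm, h]), S.symm]

/-- the common slot -/
theorem slot {a b c d : V} (h : S.q a b = S.q c d) :
    ∃ t, S.q a (b + t) = S.z ∧ S.q c (d + t) = S.z ∧ S.q (a + c) t = S.z := by
  obtain ⟨t, h1, h2⟩ := S.link a b c d h
  refine ⟨t, (S.add _ _ _).1 h1, (S.add _ _ _).1 h2, ?_⟩
  have h3 : S.q t a = S.q t c := by rw [S.symm t, S.symm t, ← h1, ← h2, h]
  rw [S.symm]
  exact (S.add _ _ _).1 h3

theorem mixq {a b c d : V} (h : S.q a b = S.q c d) : S.q (a + c) b = S.q c (b + d) := by
  obtain ⟨t, h1, h2, h3⟩ := slot h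
  have e1 : S.q (a + c) b = S.q (a + c) (b + t) := by
    rw [S.add, S.cancel, h3]
  have e2 : S.q (a + c) (b + t) = S.q c (b + t) := by
    rw [add_comm a c]
    exact add_pure' h1
  have e3 : S.q c (b + t) = S.q c (b + d) := by
    rw [S.add, show b + t + (b + d) = (b + b) + (d + t) by abel, S.two, zero_add, h2]
  rw [e1, e2, e3]

end LD

/-! ### the formal language -/

/-- moves on formal equations `q (a, b) = q (c, d)` -/
inductive Mv
  | swp | sym | addA | mix
  | addP (w : ℕ)
  | seta (a : ℕ)

/-- formal equations; `e` is the value of `om (a, b) + om (c, d)` -/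
structure Rep where
  a : ℕ
  b : ℕ
  c : ℕ
  d : ℕ
  e : Bool

/-- states: classes of the generators; commuting pairs; pairs `(x, r)` such that some `v` of class `r` commutes with
`x`; pairs `(x, r)` such that no `v` of class `r` commutes with `x` -/
structure St where
  im : List ℕ
  pures : List (ℕ × ℕ)
  parts : List (ℕ × ℕ)
  forbs : List (ℕ × ℕ)

/-- the class of a formal vector -/
def cl : List ℕ → ℕ → ℕ
  | [], _ => 0
  | c :: l, m => (if m.testBit 0 then c else 0) ^^^ cl l (m / 2)

/-- the value of a formal vector -/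
def ev : List V → ℕ → V
  | [], _ => 0
  | v :: l, m => (if m.testBit 0 then v else 0) + ev l (m / 2)

/-- certificates -/
inductive Cert
  | nil
  | thin (x r r' : ℕ)
  | conc (x y r : ℕ)
  | forb (x r : ℕ)
  | contra (ms : List Mv)
  | pure (ms : List Mv) (k : Cert)
  | split (ms : List Mv) (k0 k1 k2 k3 k4 k5 k6 k7 : Cert)
  | slot (ms : List Mv) (k0 k1 k2 k3 k4 k5 k6 k7 : Cert)

/-- `v` is in the plane of `a`, `b` -/
def inP (a b v : ℕ) : Bool := Nat.beq v a || (Nat.beq v b || Nat.beq v (a ^^^ b))

/-- commuting pairs -/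
def isPure (st : St) (a b : ℕ) : Bool :=
  Nat.beq a 0 || (Nat.beq b 0 || (Nat.beq a b || st.pures.any fun p => inP p.1 p.2 a && inP p.1 p.2 b))

/-- one move -/
def step (st : St) (m : Mv) (r : Rep) : Option Rep :=
  match m with
  | .swp => some ⟨r.c, r.d, r.a, r.b, r.e⟩
  | .sym => some ⟨r.b, r.a, r.c, r.d, r.e⟩
  | .addA => some ⟨r.a, r.b ^^^ r.a, r.c, r.d, r.e⟩
  | .mix => some ⟨r.a ^^^ r.c, r.b, r.c, r.b ^^^ r.d, r.e⟩
  | .addP w => if isPure st r.a w then
      some ⟨r.a, r.b ^^^ w, r.c, r.d, r.e ^^ ind (cl st.im r.a) (cl st.im w)⟩ else none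
  | .seta a => if Nat.beq r.b 0 then some ⟨a, 0, r.c, r.d, r.e⟩ else none

/-- several moves -/
def run (st : St) : List Mv → Rep → Option Rep
  | [], r => some r
  | m :: ms, r => match step st m r with
    | none => none
    | some r' => run st ms r'

/-- the part relation given by one commuting pair -/
def pPart (im : List ℕ) (p : ℕ × ℕ) (x r : ℕ) : Bool :=
  (Nat.beq x p.1 && (Nat.beq r (cl im p.2) || Nat.beq r (cl im p.1 ^^^ cl im p.2))) ||
  ((Nat.beq x p.2 && (Nat.beq r (cl im p.1) || Nat.beq r (cl im p.1 ^^^ cl im p.2))) ||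
  (Nat.beq x (p.1 ^^^ p.2) && (Nat.beq r (cl im p.1) || Nat.beq r (cl im p.2))))

/-- some `v` of class `r` commutes with `x` -/
def hasPart (st : St) (x r : ℕ) : Bool :=
  Nat.beq r 0 || (Nat.beq r (cl st.im x) || (st.pures.any (fun p => pPart st.im p x r) ||
    st.parts.any fun p => Nat.beq p.1 x && (Nat.beq p.2 r || Nat.beq p.2 (r ^^^ cl st.im x))))

/-- the parity condition for a slot of class `s` -/
def parOk (im : List ℕ) (r : Rep) (s : ℕ) : Bool :=
  Bool.xor (ind (cl im r.a) (cl im r.b ^^^ s)) (Bool.xor (ind (cl im r.c) (cl im r.d ^^^ s))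
    (Bool.xor (ind (cl im r.a ^^^ cl im r.c) s) r.e))

/-- the state after a split -/
def addParts (st : St) (r : Rep) (s : ℕ) : St :=
  { st with parts := (r.a, cl st.im r.b ^^^ s) :: (r.c, cl st.im r.d ^^^ s) :: (r.a ^^^ r.c, s) :: st.parts }

/-- the state after a slot -/
def addSlot (st : St) (r : Rep) (s : ℕ) : St :=
  let g := 2 ^ st.im.length
  { im := st.im ++ [s]
    pures := (r.a, r.b ^^^ g) :: (r.c, r.d ^^^ g) :: (r.a ^^^ r.c, g) :: st.pures
    parts := st.parts
    forbs := st.forbs }

/-- the bit `n` does not occur -/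
def fresh1 (n : ℕ) (l : List (ℕ × ℕ)) : Bool := l.all fun p => !(p.1.testBit n) && !(p.2.testBit n)

/-- the bit `n` does not occur in the first components -/
def fresh2 (n : ℕ) (l : List (ℕ × ℕ)) : Bool := l.all fun p => !(p.1.testBit n)

/-- freshness of the next generator -/
def fresh (st : St) (r : Rep) : Bool :=
  let n := st.im.length
  !(r.a.testBit n) && (!(r.b.testBit n) && (!(r.c.testBit n) && (!(r.d.testBit n) &&
    (fresh1 n st.pures && (fresh2 n st.parts && fresh2 n st.forbs)))))

/-- `q (a, b) = 0` trivially -/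
def deg (r : Rep) : Bool := Nat.beq r.a 0 || (Nat.beq r.b 0 || Nat.beq r.a r.b)

/-- the checker -/
def check : Cert → St → Bool
  | .nil, _ => false
  | .thin x r r', st => ind3 (cl st.im x) r r' && (hasPart st x r && hasPart st x r')
  | .conc x y r, st => ind3 (cl st.im x) (cl st.im y) r &&
      (hasPart st x r && (hasPart st y r && hasPart st (x ^^^ y) r))
  | .forb x r, st => hasPart st x r && st.forbs.any fun p => Nat.beq p.1 x && Nat.beq p.2 r
  | .contra ms, st => match run st ms ⟨0, 0, 0, 0, false⟩ with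
    | none => false
    | some r => deg r && Bool.xor (ind (cl st.im r.c) (cl st.im r.d)) r.e
  | .pure ms k, st => match run st ms ⟨0, 0, 0, 0, false⟩ with
    | none => false
    | some r => deg r && check k { st with pures := (r.c, r.d) :: st.pures }
  | .split ms k0 k1 k2 k3 k4 k5 k6 k7, st => match run st ms ⟨0, 0, 0, 0, false⟩ with
    | none => false
    | some r =>
      (parOk st.im r 0 || check k0 (addParts st r 0)) && ((parOk st.im r 1 || check k1 (addParts st r 1)) &&
      ((parOk st.im r 2 || check k2 (addParts st r 2)) && ((parOk st.im r 3 || check k3 (addParts st r 3)) &&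
      ((parOk st.im r 4 || check k4 (addParts st r 4)) && ((parOk st.im r 5 || check k5 (addParts st r 5)) &&
      ((parOk st.im r 6 || check k6 (addParts st r 6)) && (parOk st.im r 7 || check k7 (addParts st r 7))))))))
  | .slot ms k0 k1 k2 k3 k4 k5 k6 k7, st => match run st ms ⟨0, 0, 0, 0, false⟩ with
    | none => false
    | some r => fresh st r && (
      (parOk st.im r 0 || check k0 (addSlot st r 0)) && ((parOk st.im r 1 || check k1 (addSlot st r 1)) &&
      ((parOk st.im r 2 || check k2 (addSlot st r 2)) && ((parOk st.im r 3 || check k3 (addSlot st r 3)) &&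
      ((parOk st.im r 4 || check k4 (addSlot st r 4)) && ((parOk st.im r 5 || check k5 (addSlot st r 5)) &&
      ((parOk st.im r 6 || check k6 (addSlot st r 6)) && (parOk st.im r 7 || check k7 (addSlot st r 7)))))))))

end Pool.Agent.Codim3
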