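import Pool.Agent.Codim3.NoEnemy

/-!
Extension of forms from subspaces of codimension at most three.
-/

namespace Pool.Agent.Codim3

variable {V Q : Type} [AddCommGroup V] [Module (ZMod 2) V] {S : LD V Q}

/-- forms on `U × V` which vanish on the commuting pairs -/
structure Frm (S : LD V Q) (U : Submodule (ZMod 2) V) (β : V → V → Bool) : Prop where
  addl : ∀ u ∈ U, ∀ u' ∈ U, ∀ v, β (u + u') v = (β u v ^^ β u' v)
  addr : ∀ u ∈ U, ∀ v v', β u (v + v') = (β u v ^^ β u v')
  pure : ∀ u ∈ U, ∀ v, S.q u v = S.z → β u v = false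

/-- alternating forms -/
structure Alt (om : V → V → Bool) : Prop where
  add : ∀ x y y', om x (y + y') = (om x y ^^ om x y')
  symm : ∀ x y, om x y = om y x
  self : ∀ x, om x x = false

namespace Alt

variable {om : V → V → Bool} (h : Alt om)
include h

theorem add' (x x' y : V) : om (x + x') y = (om x y ^^ om x' y) := by
  rw [h.symm, h.add, h.symm y, h.symm y]

theorem zero (x : V) : om x 0 = false := by
  have := h.add x 0 0
  rw [add_zero] at this
  rw [this, Bool.xor_self]

end Alt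

theorem exists_proj (U : Submodule (ZMod 2) V) :
    ∃ p : V →ₗ[ZMod 2] V, (∀ x, p x ∈ U) ∧ ∀ u ∈ U, p u = u := by
  obtain ⟨g, hg⟩ := LinearMap.exists_leftInverse_of_injective U.subtype U.ker_subtype
  refine ⟨U.subtype ∘ₗ g, fun x => (g x).2, ?_⟩
  intro u hu
  have := LinearMap.congr_fun hg ⟨u, hu⟩
  simp only [LinearMap.comp_apply, Submodule.subtype_apply, LinearMap.id_apply] at this ⊢
  rw [this]

theorem exists_alt {U : Submodule (ZMod 2) V} {β : V → V → Bool} (hβ : Frm S U β) :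
    ∃ om : V → V → Bool, Alt om ∧ ∀ u ∈ U, ∀ v, om u v = β u v := by
  obtain ⟨p, hp, hpu⟩ := exists_proj U
  have hsymm : ∀ u ∈ U, ∀ u' ∈ U, β u u' = β u' u := by
    intro u hu u' hu'
    have h1 := hβ.pure _ (U.add_mem hu hu') _ (S.self (u + u'))
    rw [hβ.addl u hu u' hu', hβ.addr u hu, hβ.addr u' hu', hβ.pure u hu u (S.self u),
      hβ.pure u' hu' u' (S.self u')] at h1
    revert h1
    cases β u u' <;> cases β u' u <;> simp
  have hz : ∀ u ∈ U, β u 0 = false := fun u hu => hβ.pure u hu 0 (S.q_zero u)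
  refine ⟨fun x y => (β (p x) y ^^ β (p y) (x + p x)), ⟨?_, ?_, ?_⟩, ?_⟩
  · intro x y y'
    rw [map_add, hβ.addr _ (hp x), hβ.addl _ (hp y) _ (hp y')]
    cases β (p x) y <;> cases β (p x) y' <;> cases β (p y) (x + p x) <;> cases β (p y') (x + p x) <;> rfl
  · intro x y
    rw [hβ.addr _ (hp y), hβ.addr _ (hp x), hsymm _ (hp y) _ (hp x)]
    cases β (p x) y <;> cases β (p y) x <;> cases β (p x) (p y) <;> rfl
  · intro x
    rw [hβ.addr _ (hp x), hβ.pure _ (hp x) _ (S.self _)]
    cases β (p x) x <;> rfl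
  · intro u hu v
    simp only
    rw [hpu u hu, S.two, hz _ (hp v), Bool.xor_false]

section NE

variable {U : Submodule (ZMod 2) V} {om : V → V → Bool}

theorem class_eq (hA : Alt om) (hU : ∀ u ∈ U, ∀ v, S.q u v = S.z → om u v = false) {x v x' v' : V}
    (h : S.q x v = S.z) (h' : S.q x' v' = S.z) (hx : x + x' ∈ U) (hv : v + v' ∈ U) :
    om x v = om x' v' := by
  have e1 : S.q (x + x') v = S.q x' v := by
    rw [add_comm x]
    exact LD.add_pure' h
  have e2 : S.q (v + v') x' = S.q x' v := by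
    rw [LD.add_pure' (by rw [S.symm]; exact h'), S.symm]
  obtain ⟨t, k1, k2, k3⟩ := LD.slot (S := S) (a := x + x') (b := v) (c := v + v') (d := x')
    (by rw [e1, e2])
  have g1 := hU _ hx _ k1
  have g2 := hU _ hv _ k2
  have g3 := hU _ (U.add_mem hx hv) _ k3
  simp only [hA.add, hA.add'] at g1 g2 g3
  rw [hA.symm v x', hA.symm v' x'] at g2
  revert g1 g2 g3
  cases om x v <;> cases om x' v <;> cases om x t <;> cases om x' t <;> cases om x' v' <;>
    cases om v t <;> cases om v' t <;> simp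

theorem dep_eq (hA : Alt om) (hU : ∀ u ∈ U, ∀ v, S.q u v = S.z → om u v = false) {x v : V}
    (h : S.q x v = S.z) (hv : x ∈ U ∨ v ∈ U ∨ x + v ∈ U) : om x v = false := by
  rcases hv with hv | hv | hv
  · exact hU x hv v h
  · rw [hA.symm]; exact hU v hv x (by rw [S.symm]; exact h)
  · have h1 : S.q (x + v) x = S.z := by
      rw [S.symm]; exact LD.pure_add (S.self x) h
    have h2 := hU _ hv _ h1
    rw [hA.add', hA.self, Bool.false_xor, hA.symm] at h2
    exact h2

theorem ext_step (hA : Alt om) (hU : ∀ u ∈ U, ∀ v, S.q u v = S.z → om u v = false) {p : V} (hp : p ∉ U)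
    {g : V → Bool} (hg : ∀ v v', g (v + v') = (g v ^^ g v')) (hgp : ∀ x v, x + p ∈ U → S.q x v = S.z → om x v = g v) :
    ∃ β', Frm S (U ⊔ Submodule.span (ZMod 2) {p}) β' ∧ ∀ u ∈ U, ∀ v, β' u v = om u v := by
  classical
  have hmem : ∀ x, x ∈ U ⊔ Submodule.span (ZMod 2) {p} → x ∈ U ∨ x + p ∈ U := by
    intro x hx
    obtain ⟨u, hu, w, hw, rfl⟩ := Submodule.mem_sup.1 hx
    obtain ⟨a, rfl⟩ := Submodule.mem_span_singleton.1 hw
    have zm : ∀ a : ZMod 2, a = 0 ∨ a = 1 := by decide
    rcases zm a with rfl | rfl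
    · left; simpa using hu
    · right
      rw [one_smul, add_assoc, S.two, add_zero]; exact hu
  have hex : ∀ x, x ∈ U → x + p ∉ U := by
    intro x hx h
    apply hp
    have := U.add_mem hx h
    rwa [LD.cancel S] at this
  refine ⟨fun x v => (om x v ^^ (if x ∈ U then false else g v)), ⟨?_, ?_, ?_⟩, ?_⟩
  · intro x hx x' hx' v
    rw [hA.add']
    rcases hmem x hx with h | h <;> rcases hmem x' hx' with h' | h'
    · rw [if_pos h, if_pos h', if_pos (U.add_mem h h')]
      cases om x v <;> cases om x' v <;> rfl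
    · have h1 : x' ∉ U := fun hh => hex _ hh h'
      have h2 : x + x' ∉ U := fun hh => h1 (by
        have := U.add_mem h hh
        rwa [LD.cancel S] at this)
      rw [if_pos h, if_neg h1, if_neg h2]
      cases om x v <;> cases om x' v <;> cases g v <;> rfl
    · have h1 : x ∉ U := fun hh => hex _ hh h
      have h2 : x + x' ∉ U := fun hh => h1 (by
        have := U.add_mem hh h'
        rwa [LD.cancel' S] at this)
      rw [if_neg h1, if_pos h', if_neg h2]
      cases om x v <;> cases om x' v <;> cases g v <;> rfl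
    · have h1 : x ∉ U := fun hh => hex _ hh h
      have h2 : x' ∉ U := fun hh => hex _ hh h'
      have h3 : x + x' ∈ U := by
        have := U.add_mem h h'
        rwa [show x + p + (x' + p) = x + x' + (p + p) by abel, S.two, add_zero] at this
      rw [if_neg h1, if_neg h2, if_pos h3]
      cases om x v <;> cases om x' v <;> cases g v <;> rfl
  · intro x hx v v'
    rw [hA.add]
    split
    · cases om x v <;> cases om x v' <;> rfl
    · rw [hg]
      cases om x v <;> cases om x v' <;> cases g v <;> cases g v' <;> rfl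
  · intro x hx v hxv
    rcases hmem x hx with h | h
    · rw [if_pos h, hU x h v hxv]; rfl
    · have h1 : x ∉ U := fun hh => hex _ hh h
      rw [if_neg h1, hgp x v h hxv, Bool.xor_self]
  · intro u hu v
    simp only
    rw [if_pos hu, Bool.xor_false]

end NE

/-- separation of a point from a subspace -/
theorem exists_sep {p : Submodule (ZMod 2) V} {x : V} (hx : x ∉ p) :
    ∃ f : V →ₗ[ZMod 2] ZMod 2, f x = 1 ∧ ∀ y ∈ p, f y = 0 := by
  obtain ⟨f, hf, hp⟩ := Submodule.exists_dual_map_eq_bot_of_notMem hx inferInstance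
  have zm : ∀ a : ZMod 2, a = 0 ∨ a = 1 := by decide
  refine ⟨f, (zm (f x)).resolve_left hf, fun y hy => ?_⟩
  have : f y ∈ p.map f := Submodule.mem_map_of_mem hy
  rw [hp] at this
  simpa using this

/-- one bit -/
def bt (z : ZMod 2) (n : ℕ) : ℕ := if z = 1 then n else 0

theorem bt_add (z w : ZMod 2) (n : ℕ) : bt (z + w) n = bt z n ^^^ bt w n := by
  have zm : ∀ a : ZMod 2, a = 0 ∨ a = 1 := by decide
  have h11 : (1 + 1 : ZMod 2) = 0 := by decide
  rcases zm z with rfl | rfl <;> rcases zm w with rfl | rfl <;> simp [bt, h11]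

/-- the code -/
def cd (f0 f1 f2 : V →ₗ[ZMod 2] ZMod 2) (x : V) : ℕ := bt (f0 x) 1 ^^^ (bt (f1 x) 2 ^^^ bt (f2 x) 4)

theorem cd_add (f0 f1 f2 : V →ₗ[ZMod 2] ZMod 2) (x y : V) :
    cd f0 f1 f2 (x + y) = cd f0 f1 f2 x ^^^ cd f0 f1 f2 y := by
  unfold cd
  rw [map_add, map_add, map_add, bt_add, bt_add, bt_add]
  ac_rfl

theorem cd_lt (f0 f1 f2 : V →ₗ[ZMod 2] ZMod 2) (x : V) : cd f0 f1 f2 x < 8 := by
  have zm : ∀ a : ZMod 2, a = 0 ∨ a = 1 := by decide
  unfold cd
  rcases zm (f0 x) with h0 | h0 <;> rcases zm (f1 x) with h1 | h1 <;> rcases zm (f2 x) with h2 | h2 <;>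
    rw [h0, h1, h2] <;> decide

theorem cd_zero {f0 f1 f2 : V →ₗ[ZMod 2] ZMod 2} {x : V} (h : cd f0 f1 f2 x = 0) :
    f0 x = 0 ∧ f1 x = 0 ∧ f2 x = 0 := by
  have zm : ∀ a : ZMod 2, a = 0 ∨ a = 1 := by decide
  unfold cd at h
  rcases zm (f0 x) with h0 | h0 <;> rcases zm (f1 x) with h1 | h1 <;> rcases zm (f2 x) with h2 | h2 <;>
    rw [h0, h1, h2] at h <;> revert h <;> simp [h0, h1, h2, bt]

set_option maxRecDepth 100000 in
theorem fin_mu : ∀ a b b' : Fin 8, ind3 a b b' = true → ∀ s t : Bool, ∃ μ : Fin 8, sp μ a = false ∧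
    sp μ b = s ∧ sp μ b' = t := by decide +kernel

set_option maxRecDepth 100000 in
theorem fin_eight : ∀ a b b' e : Fin 8, ind3 a b b' = true → ((e : ℕ) = 0 ∨ (e : ℕ) = a ∨ (e : ℕ) = b ∨
    (e : ℕ) = b ^^^ a ∨ (e : ℕ) = b' ∨ (e : ℕ) = b' ^^^ a ∨ (e : ℕ) = b ^^^ b' ∨
    (e : ℕ) = b ^^^ b' ^^^ a) := by decide +kernel

set_option maxRecDepth 100000 in
theorem fin_third : ∀ a b : Fin 8, ind a b = true → ∃ r : Fin 8, ind3 a b r = true := by decide +kernel

theorem plem {A A' B B' C C' : Prop} (u1 : ¬ (A ∧ A')) (u2 : ¬ (B ∧ B')) (u3 : ¬ (C ∧ C')) (c00 : A ∨ B ∨ C)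
    (c01 : A ∨ B' ∨ C') (c10 : A' ∨ B ∨ C') (c11 : A' ∨ B' ∨ C) :
    (A ∧ B ∧ C) ∨ (A ∧ B' ∧ C') ∨ (A' ∧ B ∧ C') ∨ (A' ∧ B' ∧ C) := by
  by_cases a : A <;> by_cases a' : A' <;> by_cases b : B <;> by_cases b' : B' <;> by_cases c : C <;>
    by_cases c' : C' <;> simp_all

section codim3

variable {U : Submodule (ZMod 2) V} {om : V → V → Bool}

/-- the values of `om` on commuting pairs with given classes -/
def TT (S : LD V Q) (om : V → V → Bool) (c : V → ℕ) (a b : ℕ) (t : Bool) : Prop :=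
  ∃ x v, S.q x v = S.z ∧ c x = a ∧ c v = b ∧ om x v = t

theorem contra3 (hA : Alt om) (hU : ∀ u ∈ U, ∀ v, S.q u v = S.z → om u v = false) {c : V → ℕ}
    (c_add : ∀ x y, c (x + y) = c x ^^^ c y) (c_lt : ∀ x, c x < 8) (c_zero : ∀ x, c x = 0 ↔ x ∈ U)
    (hne : ∀ a < 8, a ≠ 0 → ∀ μ < 8, ∃ x v, c x = a ∧ S.q x v = S.z ∧ om x v ≠ sp μ (c v)) : False := by
  classical
  have ceq : ∀ x y, c x = c y ↔ x + y ∈ U := by
    intro x y
    rw [← c_zero, c_add, xor_eq_zero']
  have uniq : ∀ a b t t', TT S om c a b t → TT S om c a b t' → t = t' := by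
    rintro a b t t' ⟨x, v, h1, h2, h3, h4⟩ ⟨x', v', h1', h2', h3', h4'⟩
    rw [← h4, ← h4']
    exact class_eq hA hU h1 h1' ((ceq _ _).1 (by rw [h2, h2'])) ((ceq _ _).1 (by rw [h3, h3']))
  have shift : ∀ a b t, TT S om c a b t → TT S om c a (b ^^^ a) t := by
    rintro a b t ⟨x, v, h1, h2, h3, h4⟩
    exact ⟨x, v + x, LD.pure_add h1 (S.self x), h2, by rw [c_add, h2, h3],
      by rw [hA.add, hA.self, h4, Bool.xor_false]⟩
  have symm : ∀ a b t, TT S om c a b t → TT S om c b a t := by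
    rintro a b t ⟨x, v, h1, h2, h3, h4⟩
    exact ⟨v, x, by rw [S.symm]; exact h1, h3, h2, by rw [hA.symm]; exact h4⟩
  have dep : ∀ a b t, TT S om c a b t → ind a b = false → t = false := by
    rintro a b t ⟨x, v, h1, rfl, rfl, rfl⟩ hi
    apply dep_eq hA hU h1
    by_contra hc
    push Not at hc
    have : ind (c x) (c v) = true := by
      rw [ind_iff, Ne, c_zero, Ne, c_zero, Ne, ceq]
      exact hc
    rw [this] at hi
    exact absurd hi (by simp)
  have shiftiff : ∀ a b t, TT S om c a (b ^^^ a) t ↔ TT S om c a b t := by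
    intro a b t
    refine ⟨fun h => ?_, shift a b t⟩
    have := shift _ _ _ h
    rwa [Nat.xor_assoc, Nat.xor_self, Nat.xor_zero] at this
  have star : ∀ a < 8, ∀ b < 8, ∀ b' < 8, ind3 a b b' = true → ∃ t1 t2 t3, TT S om c a b t1 ∧
      TT S om c a b' t2 ∧ TT S om c a (b ^^^ b') t3 ∧ (t1 ^^ (t2 ^^ t3)) = true := by
    intro a ha b hb b' hb' hi
    have hcl : ∀ s t : Bool, TT S om c a b (!s) ∨ TT S om c a b' (!t) ∨ TT S om c a (b ^^^ b') (!(s ^^ t)) := by
      intro s t
      obtain ⟨⟨μ, hμ⟩, m1, m2, m3⟩ := fin_mu ⟨a, ha⟩ ⟨b, hb⟩ ⟨b', hb'⟩ hi s t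
      simp only at m1 m2 m3
      obtain ⟨x, v, h1, h2, h3⟩ := hne a ha (ind3_iff.1 hi).1.1 μ hμ
      have hT : TT S om c a (c v) (om x v) := ⟨x, v, h2, h1, rfl, rfl⟩
      have hdep : ind a (c v) = false → False := by
        intro h
        apply h3
        have h4 := dep _ _ _ hT h
        rw [h4]
        have h5 : ¬ (a ≠ 0 ∧ c v ≠ 0 ∧ a ≠ c v) := by
          intro h6; rw [ind_iff.2 h6] at h; exact absurd h (by simp)
        by_cases h6 : c v = 0
        · rw [h6]; simp [sp]
        · have h7 : c v = a := by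
            by_contra h8
            exact h5 ⟨(ind3_iff.1 hi).1.1, h6, fun h9 => h8 h9.symm⟩
          rw [h7, m1]
      have h8 := fin_eight ⟨a, ha⟩ ⟨b, hb⟩ ⟨b', hb'⟩ ⟨c v, c_lt v⟩ hi
      simp only at h8
      have hval : ∀ s' : Bool, sp μ (c v) = s' → om x v = !s' := by
        intro s' hs'
        rw [hs'] at h3
        revert h3
        cases om x v <;> cases s' <;> simp
      rcases h8 with h | h | h | h | h | h | h | h
      · exact absurd (hdep (by rw [h]; exact ind_zero_right a)) (by simp)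
      · exact absurd (hdep (by rw [h]; exact ind_self a)) (by simp)
      · left
        rw [hval s (by rw [h, m2]), h] at hT; exact hT
      · left
        rw [hval s (by rw [h, sp_add, m1, m2, Bool.xor_false]), h, shiftiff] at hT; exact hT
      · right; left
        rw [hval t (by rw [h, m3]), h] at hT; exact hT
      · right; left
        rw [hval t (by rw [h, sp_add, m1, m3, Bool.xor_false]), h, shiftiff] at hT; exact hT
      · right; right
        rw [hval (s ^^ t) (by rw [h, sp_add, m2, m3]), h] at hT; exact hT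
      · right; right
        rw [hval (s ^^ t) (by rw [h, sp_add, sp_add, m1, m2, m3, Bool.xor_false]), h, shiftiff] at hT
        exact hT
    have c00 := hcl false false
    have c01 := hcl false true
    have c10 := hcl true false
    have c11 := hcl true true
    simp only [Bool.not_false, Bool.not_true, Bool.xor_self, Bool.xor_false, Bool.false_xor, Bool.xor_true] at c00 c01 c10 c11
    have u1 : ¬ (TT S om c a b true ∧ TT S om c a b false) := fun h => absurd (uniq _ _ _ _ h.1 h.2) (by simp)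
    have u2 : ¬ (TT S om c a b' true ∧ TT S om c a b' false) := fun h => absurd (uniq _ _ _ _ h.1 h.2) (by simp)
    have u3 : ¬ (TT S om c a (b ^^^ b') true ∧ TT S om c a (b ^^^ b') false) :=
      fun h => absurd (uniq _ _ _ _ h.1 h.2) (by simp)
    have hres : (TT S om c a b true ∧ TT S om c a b' true ∧ TT S om c a (b ^^^ b') true) ∨
        (TT S om c a b true ∧ TT S om c a b' false ∧ TT S om c a (b ^^^ b') false) ∨
        (TT S om c a b false ∧ TT S om c a b' true ∧ TT S om c a (b ^^^ b') false) ∨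
        (TT S om c a b false ∧ TT S om c a b' false ∧ TT S om c a (b ^^^ b') true) := by
      exact plem u1 u2 u3 c00 c01 c10 c11
    rcases hres with h | h | h | h
    · exact ⟨_, _, _, h.1, h.2.1, h.2.2, rfl⟩
    · exact ⟨_, _, _, h.1, h.2.1, h.2.2, rfl⟩
    · exact ⟨_, _, _, h.1, h.2.1, h.2.2, rfl⟩
    · exact ⟨_, _, _, h.1, h.2.1, h.2.2, rfl⟩
  let s : ℕ → ℕ → Bool := fun a b => ind a b && decide (TT S om c a b false)
  have s_val : ∀ a b t, ind a b = true → TT S om c a b t → s a b = !t := by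
    intro a b t hi hT
    show (ind a b && decide (TT S om c a b false)) = !t
    rw [hi, Bool.true_and]
    cases t
    · rw [decide_eq_true hT]; rfl
    · rw [decide_eq_false (fun h => absurd (uniq _ _ _ _ hT h) (by simp))]; rfl
  have s_ind : ∀ a b, ind a b = false → s a b = false := by
    intro a b h
    show (ind a b && decide (TT S om c a b false)) = false
    rw [h, Bool.false_and]
  have s_symm : ∀ a b, s a b = s b a := by
    intro a b
    have h1 : ind a b = ind b a := by
      rw [Bool.eq_iff_iff, ind_iff, ind_iff]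
      constructor
      · rintro ⟨h1, h2, h3⟩; exact ⟨h2, h1, h3.symm⟩
      · rintro ⟨h1, h2, h3⟩; exact ⟨h2, h1, h3.symm⟩
    show (ind a b && decide (TT S om c a b false)) = (ind b a && decide (TT S om c b a false))
    rw [h1, decide_eq_decide.2 ⟨symm a b false, symm b a false⟩]
  have s_shift : ∀ a b, s a (b ^^^ a) = s a b := by
    intro a b
    have h1 : ind a (b ^^^ a) = ind a b := by
      rw [Bool.eq_iff_iff, ind_iff, ind_iff]
      have e1 : b ^^^ a = 0 ↔ a = b := by rw [xor_eq_zero']; exact ⟨Eq.symm, Eq.symm⟩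
      have e2 : a = b ^^^ a ↔ b = 0 := by
        rw [← xor_eq_iff' (a := a) (b := a), Nat.xor_self]; exact ⟨Eq.symm, Eq.symm⟩
      simp only [ne_eq, e1, e2]
      tauto
    show (ind a (b ^^^ a) && decide (TT S om c a (b ^^^ a) false)) = (ind a b && decide (TT S om c a b false))
    rw [h1, decide_eq_decide.2 (shiftiff a b false)]
  have s_add : ∀ a < 8, ∀ b < 8, ∀ b' < 8, s a (b ^^^ b') = (s a b ^^ s a b') := by
    intro a ha b hb b' hb'
    by_cases hi : ind3 a b b' = true
    · obtain ⟨t1, t2, t3, h1, h2, h3, h4⟩ := star a ha b hb b' hb' hi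
      obtain ⟨i1, i2, -, i4, -⟩ := ind3_ab hi
      rw [s_val a b t1 i1 h1, s_val a b' t2 i2 h2, s_val a _ t3 i4 h3]
      revert h4
      cases t1 <;> cases t2 <;> cases t3 <;> simp
    · rw [ind3_iff] at hi
      have hd : a = 0 ∨ b = 0 ∨ b' = 0 ∨ b = a ∨ b' = a ∨ b = b' ∨ b' = b ^^^ a := by
        by_contra hc
        push Not at hc
        obtain ⟨h1, h2, h3, h4, h5, h6, h7⟩ := hc
        exact hi ⟨⟨h1, h2, h4.symm⟩, ⟨h1, h3, h5.symm⟩, ⟨h2, h3, h6⟩, fun h => h7 (by rw [← h, Nat.xor_comm])⟩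
      rcases hd with rfl | rfl | rfl | rfl | rfl | rfl | rfl
      · rw [s_ind _ _ (ind_zero_left _), s_ind _ _ (ind_zero_left _), s_ind _ _ (ind_zero_left _)]; rfl
      · rw [Nat.zero_xor, s_ind _ _ (ind_zero_right _), Bool.false_xor]
      · rw [Nat.xor_zero, s_ind _ _ (ind_zero_right _), Bool.xor_false]
      · rw [Nat.xor_comm, s_shift, s_ind _ _ (ind_self _), Bool.false_xor]
      · rw [s_shift, s_ind _ _ (ind_self _), Bool.xor_false]
      · rw [Nat.xor_self, s_ind _ _ (ind_zero_right _), Bool.xor_self]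
      · rw [s_shift, ← Nat.xor_assoc, Nat.xor_self, Nat.zero_xor, s_ind _ _ (ind_self _), Bool.xor_self]
  let E : En S :=
    { om := fun x y => (om x y ^^ s (c x) (c y))
      om_add := by
        intro x y y'
        rw [hA.add, c_add, s_add _ (c_lt x) _ (c_lt y) _ (c_lt y')]
        cases om x y <;> cases om x y' <;> cases s (c x) (c y) <;> cases s (c x) (c y') <;> rfl
      om_symm := by
        intro x y
        rw [hA.symm, s_symm]
      c := c
      c_lt := c_lt
      c_add := c_add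
      pure := by
        intro x y hxy
        have hT : TT S om c (c x) (c y) (om x y) := ⟨x, y, hxy, rfl, rfl, rfl⟩
        cases hi : ind (c x) (c y)
        · rw [dep _ _ _ hT hi, s_ind _ _ hi]; rfl
        · rw [s_val _ _ _ hi hT]
          cases om x y <;> rfl }
  refine no_enemy E ?_
  intro a ha b hb hi
  obtain ⟨⟨r, hr⟩, h3⟩ := fin_third ⟨a, ha⟩ ⟨b, hb⟩ hi
  obtain ⟨t1, t2, t3, ⟨x, v, h1, h2, h3, h4⟩, -⟩ := star a ha b hb r hr h3
  exact ⟨x, v, h1, h2, h3⟩

end codim3

end Pool.Agent.Codim3
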