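import Pool.Agent.Codim3.Transfer

/-!
Quaternionic structures with `-1 = 1`, finite or infinite: the extension property for subgroups of index at most
eight.
-/

namespace Pool.Agent.Codim3.IndexEight

/-- The extension property for the subgroup `U` of `G`: every biadditive map `β : U × G → F_2` with `β (u, v) = 0`
whenever `q (u, v) = 0` is the restriction of a biadditive map `γ : G × G → F_2` with `γ (u, v) = 0` whenever
`q (u, v) = 0`. -/
def Extends (S : QS.QStruct) (U : Subgroup S.G) : Prop :=
  ∀ β : S.G → S.G → ZMod 2,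
    (∀ u ∈ U, ∀ u' ∈ U, ∀ v, β (u * u') v = β u v + β u' v) →
    (∀ u ∈ U, ∀ v v', β u (v * v') = β u v + β u v') →
    (∀ u ∈ U, ∀ v, S.q u v = S.zero → β u v = 0) →
    ∃ γ : S.G → S.G → ZMod 2,
      (∀ u u' v, γ (u * u') v = γ u v + γ u' v) ∧ (∀ u v v', γ u (v * v') = γ u v + γ u v') ∧
      (∀ u v, S.q u v = S.zero → γ u v = 0) ∧ ∀ u ∈ U, ∀ v, γ u v = β u v

/-- Every subgroup of index at most `8` of a (finite or infinite) quaternionic structure with `-1 = 1` has the
extension property. (`U.index = 0` is Mathlib's convention for infinite index.) -/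
theorem result : ∀ S : QS.QStruct, S.neg = 1 → ∀ U : Subgroup S.G, U.index ≠ 0 → U.index ≤ 8 → Extends S U :=
  fun S h U h0 h8 β b1 b2 b3 => Pool.Agent.Codim3.extend_of_index S h U h0 h8 β b1 b2 b3

end Pool.Agent.Codim3.IndexEight
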