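import Pool.Agent.Codim3.Extend

/-!
Every subspace of codimension at most three has the extension property.
-/

namespace Pool.Agent.Codim3

variable {V Q : Type} [AddCommGroup V] [Module (ZMod 2) V] {S : LD V Q}

theorem zm (a : ZMod 2) : a = 0 ∨ a = 1 := by
  revert a; decide

section step

variable {U : Submodule (ZMod 2) V} {om : V → V → Bool}

/-- the extension step exists for subspaces of codimension one, two and three -/
theorem stepE (hA : Alt om) (hU : ∀ u ∈ U, ∀ v, S.q u v = S.z → om u v = false) (h0 : Nat.card (V ⧸ U) ≠ 0)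
    (h8 : Nat.card (V ⧸ U) ≤ 8) (hT : U ≠ ⊤) :
    ∃ p, p ∉ U ∧ ∃ g : V → Bool, (∀ v v', g (v + v') = (g v ^^ g v')) ∧
      ∀ x v, x + p ∈ U → S.q x v = S.z → om x v = g v := by
  have hfin : Finite (V ⧸ U) := Nat.finite_of_card_ne_zero h0
  have hfd : Module.Finite (ZMod 2) (V ⧸ U) := Module.Finite.of_finite
  have hcard : Nat.card (V ⧸ U) = 2 ^ Module.finrank (ZMod 2) (V ⧸ U) := by
    rw [Module.natCard_eq_pow_finrank (K := ZMod 2), Nat.card_zmod]
  have hk : Module.finrank (ZMod 2) (V ⧸ U) ≤ 3 := by
    rw [hcard] at h8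
    exact (Nat.pow_le_pow_iff_right (a := 2) (by norm_num)).1 (by simpa using h8)
  have hmk : ∀ x : V, U.mkQ x = 0 ↔ x ∈ U := fun x => by simp
  generalize hn : Module.finrank (ZMod 2) (V ⧸ U) = n at hk
  let b := Module.finBasisOfFinrankEq (ZMod 2) (V ⧸ U) hn
  have hb : ∀ x : V, x ∈ U ↔ ∀ i, b.coord i (U.mkQ x) = 0 := by
    intro x
    rw [← hmk, ← b.forall_coord_eq_zero_iff]
  let f : Fin n → V →ₗ[ZMod 2] ZMod 2 := fun i => b.coord i ∘ₗ U.mkQ
  have hf : ∀ x, x ∈ U ↔ ∀ i, f i x = 0 := hb
  have hsurj : ∀ w : Fin n → ZMod 2, ∃ p, ∀ i, f i p = w i := by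
    intro w
    obtain ⟨p, hp⟩ := U.mkQ_surjective (b.equivFun.symm w)
    refine ⟨p, fun i => ?_⟩
    show b.coord i (U.mkQ p) = w i
    rw [hp, Module.Basis.coord_apply, ← Module.Basis.equivFun_apply, LinearEquiv.apply_symm_apply]
  clear_value f
  clear hb
  clear_value b
  interval_cases n
  · exfalso
    apply hT
    rw [eq_top_iff]
    intro x _
    rw [hf]
    exact fun i => i.elim0
  · obtain ⟨p, hp⟩ := hsurj (fun _ => 1)
    refine ⟨p, ?_, fun _ => false, fun _ _ => rfl, ?_⟩
    · rw [hf]
      intro h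
      have := h 0
      rw [hp] at this
      exact absurd this (by decide)
    · intro x v hx hxv
      have hx0 : f 0 x = 1 := by
        have := (hf _).1 hx 0
        rw [map_add, hp] at this
        rcases zm (f 0 x) with h | h
        · rw [h] at this; exact absurd this (by decide)
        · exact h
      apply dep_eq hA hU hxv
      right
      rcases zm (f 0 v) with h | h
      · left
        rw [hf]
        intro i
        rw [Fin.fin_one_eq_zero i]; exact h
      · right
        rw [hf]
        intro i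
        rw [Fin.fin_one_eq_zero i, map_add, hx0, h]; decide
  · obtain ⟨p, hp⟩ := hsurj ![1, 0]
    have hp0 : f 0 p = 1 := hp 0
    have hp1 : f 1 p = 0 := hp 1
    have hmem : ∀ y, f 0 y = 0 → f 1 y = 0 → y ∈ U := by
      intro y h1 h2
      rw [hf]
      intro i
      fin_cases i
      · exact h1
      · exact h2
    have hx : ∀ x, x + p ∈ U → f 0 x = 1 ∧ f 1 x = 0 := by
      intro x hx
      have h1 := (hf _).1 hx 0
      have h2 := (hf _).1 hx 1
      rw [map_add, hp0] at h1
      rw [map_add, hp1, add_zero] at h2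
      refine ⟨?_, h2⟩
      rcases zm (f 0 x) with h | h
      · rw [h] at h1; exact absurd h1 (by decide)
      · exact h
    have hpU : p ∉ U := by
      intro h
      have := (hf _).1 h 0
      rw [hp0] at this
      exact absurd this (by decide)
    -- reduction to `f 0 v = 0`
    have hred : ∀ x v, x + p ∈ U → S.q x v = S.z → ∃ v', S.q x v' = S.z ∧ om x v' = om x v ∧ f 0 v' = 0 ∧
        f 1 v' = f 1 v := by
      intro x v hxp hxv
      obtain ⟨h1, h2⟩ := hx x hxp
      rcases zm (f 0 v) with h | h
      · exact ⟨v, hxv, rfl, h, rfl⟩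
      · refine ⟨v + x, LD.pure_add hxv (S.self x), ?_, ?_, ?_⟩
        · rw [hA.add, hA.self, Bool.xor_false]
        · rw [map_add, h, h1]; decide
        · rw [map_add, h2, add_zero]
    by_cases hex : ∃ x v, x + p ∈ U ∧ S.q x v = S.z ∧ om x v = true
    · obtain ⟨x0, v0, a1, a2, a3⟩ := hex
      obtain ⟨v1, b1, b2, b3, b4⟩ := hred x0 v0 a1 a2
      rw [a3] at b2
      have hv1 : f 1 v1 = 1 := by
        rcases zm (f 1 v1) with h | h
        · have := hU v1 (hmem v1 b3 h) x0 (by rw [S.symm]; exact b1)
          rw [hA.symm, b2] at this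
          exact absurd this (by simp)
        · exact h
      refine ⟨p, hpU, fun v => decide (f 1 v = 1), ?_, ?_⟩
      · intro v v'
        simp only [map_add]
        rcases zm (f 1 v) with h | h <;> rcases zm (f 1 v') with h' | h' <;> rw [h, h'] <;> decide
      · intro x v hxp hxv
        obtain ⟨v', c1, c2, c3, c4⟩ := hred x v hxp hxv
        rw [← c2]
        show om x v' = decide (f 1 v = 1)
        rw [← c4]
        rcases zm (f 1 v') with h | h
        · rw [h]
          exact dep_eq hA hU c1 (Or.inr (Or.inl (hmem v' c3 h)))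
        · have h1 : om x v' = om x0 v1 := by
            refine class_eq hA hU c1 b1 ?_ ?_
            · have := U.add_mem hxp a1
              rwa [show x + p + (x0 + p) = x + x0 + (p + p) by abel, S.two, add_zero] at this
            · apply hmem
              · rw [map_add, c3, b3]; decide
              · rw [map_add, h, hv1]; decide
          rw [h1, b2, h]; decide
    · refine ⟨p, hpU, fun _ => false, fun _ _ => rfl, ?_⟩
      intro x v hxp hxv
      by_contra hc
      exact hex ⟨x, v, hxp, hxv, by simpa using hc⟩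
  · -- codimension three
    by_contra hne
    push Not at hne
    have hc0 : ∀ x, cd (f 0) (f 1) (f 2) x = 0 ↔ x ∈ U := by
      intro x
      constructor
      · intro h
        obtain ⟨h0, h1, h2⟩ := cd_zero h
        rw [hf]
        intro i
        fin_cases i
        · exact h0
        · exact h1
        · exact h2
      · intro h
        have := (hf _).1 h
        simp only [cd, this, bt]
        decide
    refine contra3 hA hU (c := cd (f 0) (f 1) (f 2)) (cd_add _ _ _) (cd_lt _ _ _) hc0 ?_
    intro a ha ha0 μ hμ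
    have hex : ∃ p, cd (f 0) (f 1) (f 2) p = a := by
      obtain ⟨p, hp⟩ := hsurj ![if a.testBit 0 then 1 else 0, if a.testBit 1 then 1 else 0,
        if a.testBit 2 then 1 else 0]
      refine ⟨p, ?_⟩
      have h0 : f 0 p = if a.testBit 0 then 1 else 0 := hp 0
      have h1 : f 1 p = if a.testBit 1 then 1 else 0 := hp 1
      have h2 : f 2 p = if a.testBit 2 then 1 else 0 := hp 2
      unfold cd
      rw [h0, h1, h2]
      clear hp h0 h1 h2 ha0
      revert ha
      revert a
      decide
    obtain ⟨p, hp⟩ := hex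
    have hpU : p ∉ U := by
      intro h
      rw [← hc0, hp] at h
      exact ha0 h
    obtain ⟨x, v, k1, k2, k3⟩ := hne p hpU (fun v => sp μ (cd (f 0) (f 1) (f 2) v)) (by
      intro v v'
      rw [cd_add, sp_add])
    refine ⟨x, v, ?_, k2, k3⟩
    rw [← hp, ← xor_eq_zero', ← cd_add, hc0]
    exact k1

end step

/-- **the theorem** -/
theorem extend : ∀ n : ℕ, ∀ U : Submodule (ZMod 2) V, Nat.card (V ⧸ U) = n → n ≠ 0 → n ≤ 8 → ∀ β, Frm S U β →
    ∃ γ, Frm S ⊤ γ ∧ ∀ u ∈ U, ∀ v, γ u v = β u v := by
  intro n
  induction n using Nat.strong_induction_on with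
  | _ n ih =>
    intro U hc h0 h8 β hβ
    by_cases hT : U = ⊤
    · subst hT
      exact ⟨β, hβ, fun _ _ _ => rfl⟩
    obtain ⟨om, hA, hom⟩ := exists_alt hβ
    have hU : ∀ u ∈ U, ∀ v, S.q u v = S.z → om u v = false := by
      intro u hu v h
      rw [hom u hu v]
      exact hβ.pure u hu v h
    obtain ⟨p, hp, g, hg, hgp⟩ := stepE hA hU (by rw [hc]; exact h0) (by rw [hc]; exact h8) hT
    obtain ⟨β', hβ', hβ2⟩ := ext_step hA hU hp hg hgp
    have hfin : Finite (V ⧸ U) := Nat.finite_of_card_ne_zero (by rw [hc]; exact h0)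
    have hle : U ≤ U ⊔ Submodule.span (ZMod 2) {p} := le_sup_left
    have hpm : p ∈ U ⊔ Submodule.span (ZMod 2) {p} :=
      Submodule.mem_sup_right (Submodule.mem_span_singleton_self p)
    have hsurj : Function.Surjective (Submodule.factor hle) := Submodule.factor_surjective hle
    have hfin' : Finite (V ⧸ (U ⊔ Submodule.span (ZMod 2) {p})) := Finite.of_surjective _ hsurj
    have hlt : Nat.card (V ⧸ (U ⊔ Submodule.span (ZMod 2) {p})) < Nat.card (V ⧸ U) := by
      refine lt_of_le_of_ne (Nat.card_le_card_of_surjective _ hsurj) ?_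
      intro heq
      have hbij : Function.Bijective (Submodule.factor hle) :=
        (Nat.bijective_iff_surjective_and_card _).2 ⟨hsurj, heq.symm⟩
      apply hp
      have h1 : Submodule.factor hle (U.mkQ p) = Submodule.factor hle 0 := by
        rw [map_zero]
        simpa using hpm
      have h2 := hbij.1 h1
      simpa using h2
    obtain ⟨γ, hγ, hγ2⟩ := ih _ (by rw [← hc]; exact hlt) _ rfl (Nat.card_pos).ne' (by omega) β' hβ'
    exact ⟨γ, hγ, fun u hu v => by rw [hγ2 u (hle hu) v, hβ2 u hu v, hom u hu v]⟩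

end Pool.Agent.Codim3
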