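import Pool.Agent.Codim3.Sound
import Pool.Agent.Codim3.Certs

/-!
There are no enemies of codimension three.
-/

namespace Pool.Agent.Codim3

variable {V Q : Type} [AddCommGroup V] {S : LD V Q}

/-- cross product of codes -/
def cr (a b : ℕ) : ℕ :=
  (if ((a.testBit 1 && b.testBit 2) ^^ (a.testBit 2 && b.testBit 1)) then 1 else 0) ^^^
  ((if ((a.testBit 0 && b.testBit 2) ^^ (a.testBit 2 && b.testBit 0)) then 2 else 0) ^^^
  (if ((a.testBit 0 && b.testBit 1) ^^ (a.testBit 1 && b.testBit 0)) then 4 else 0))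

/-- scalar product of codes -/
def sp (a b : ℕ) : Bool :=
  (a.testBit 0 && b.testBit 0) ^^ ((a.testBit 1 && b.testBit 1) ^^ (a.testBit 2 && b.testBit 2))

/-- the coordinates with respect to the basis `a`, `b`, `r` -/
def gg (a b r m : ℕ) : ℕ :=
  (if sp (cr b r) m then 1 else 0) ^^^ ((if sp (cr a r) m then 2 else 0) ^^^ (if sp (cr a b) m then 4 else 0))

set_option maxRecDepth 100000 in
theorem gg_spec0 : ∀ a b r : Fin 8, ind3 a b r = true →
    gg a b r a = 1 ∧ gg a b r b = 2 ∧ gg a b r r = 4 ∧ ∀ m : Fin 8, gg a b r m < 8 ∧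
      (gg a b r m = 0 → (m : ℕ) = 0) := by decide +kernel

theorem gg_spec (a : ℕ) (ha : a < 8) (b : ℕ) (hb : b < 8) (r : ℕ) (hr : r < 8) (h : ind3 a b r = true) :
    gg a b r a = 1 ∧ gg a b r b = 2 ∧ gg a b r r = 4 ∧ ∀ m < 8, gg a b r m < 8 ∧
      (gg a b r m = 0 → m = 0) := by
  obtain ⟨h1, h2, h3, h4⟩ := gg_spec0 ⟨a, ha⟩ ⟨b, hb⟩ ⟨r, hr⟩ h
  exact ⟨h1, h2, h3, fun m hm => h4 ⟨m, hm⟩⟩

theorem sp_add (a m n : ℕ) : sp a (m ^^^ n) = (sp a m ^^ sp a n) := by
  unfold sp
  simp only [Nat.testBit_xor]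
  cases a.testBit 0 <;> cases a.testBit 1 <;> cases a.testBit 2 <;> cases m.testBit 0 <;>
    cases m.testBit 1 <;> cases m.testBit 2 <;> cases n.testBit 0 <;>
    cases n.testBit 1 <;> cases n.testBit 2 <;> rfl

theorem gg_add (a b r m n : ℕ) : gg a b r (m ^^^ n) = gg a b r m ^^^ gg a b r n := by
  unfold gg
  rw [sp_add, sp_add, sp_add]
  cases sp (cr b r) m <;> cases sp (cr b r) n <;> cases sp (cr a r) m <;> cases sp (cr a r) n <;>
    cases sp (cr a b) m <;> cases sp (cr a b) n <;> rfl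

/-- change of coordinates -/
def En.change (E : En S) (a b r : ℕ) (ha : a < 8) (hb : b < 8) (hr : r < 8) (h : ind3 a b r = true) : En S where
  om := E.om
  om_add := E.om_add
  om_symm := E.om_symm
  c := fun x => gg a b r (E.c x)
  c_lt := fun x => ((gg_spec a ha b hb r hr h).2.2.2 _ (E.c_lt x)).1
  c_add := fun x y => by rw [E.c_add, gg_add]
  pure := fun x y hxy => by
    rw [E.pure x y hxy]
    have hz : ∀ m < 8, gg a b r m = 0 ↔ m = 0 := by
      intro m hm
      refine ⟨((gg_spec a ha b hb r hr h).2.2.2 m hm).2, ?_⟩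
      rintro rfl
      have := gg_add a b r 0 0
      rw [Nat.xor_self, Nat.xor_self] at this
      exact this
    have h1 := hz _ (E.c_lt x)
    have h2 := hz _ (E.c_lt y)
    have h3 := hz _ (E.c_lt (x + y))
    rw [E.c_add, gg_add] at h3
    rw [xor_eq_zero', xor_eq_zero'] at h3
    rw [Bool.eq_iff_iff, ind_iff, ind_iff]
    simp only [ne_eq, h1, h2, h3]

theorem En.change_c (E : En S) (a b r : ℕ) (ha : a < 8) (hb : b < 8) (hr : r < 8) (h : ind3 a b r = true)
    (x : V) : (E.change a b r ha hb hr h).c x = gg a b r (E.c x) := rfl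

theorem gg_inj {a b r : ℕ} (ha : a < 8) (hb : b < 8) (hr : r < 8) (h : ind3 a b r = true) {m n : ℕ}
    (hmn : m ^^^ n < 8) : gg a b r m = gg a b r n ↔ m = n := by
  rw [← xor_eq_zero', ← gg_add, ← xor_eq_zero' (a := m)]
  refine ⟨((gg_spec a ha b hb r hr h).2.2.2 _ hmn).2, ?_⟩
  intro h
  rw [h]
  have := gg_add a b r 0 0
  rw [Nat.xor_self, Nat.xor_self] at this
  exact this

section certs

variable (E : En S)

theorem use4 {x y w v v' : V} (hx : E.c x = 1) (hy : E.c y = 2) (hw : S.q (x + y) w = S.z)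
    (hwx : E.c w = 1) (hv : S.q x v = S.z) (hvr : E.c v = 4) (hv' : S.q y v' = S.z) (hvr' : E.c v' = 4)
    (hno : ∀ w', S.q y w' = S.z → E.c w' ≠ 1) : False := by
  refine check_sound (E := E) cert4 st4 [x, y, w + x, v] ⟨?_, ?_, ?_, ?_⟩ check4
  · refine List.Forall₂.cons hx (List.Forall₂.cons hy (List.Forall₂.cons ?_ (List.Forall₂.cons hvr
      List.Forall₂.nil)))
    rw [E.c_add, hwx, hx]; rfl
  · intro p hp
    simp only [st4, List.mem_cons, List.not_mem_nil, or_false] at hp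
    rcases hp with rfl | rfl
    · have e1 : ev [x, y, w + x, v] 3 = x + y := by simp [ev]
      have e2 : ev [x, y, w + x, v] 5 = w := by
        have : ev [x, y, w + x, v] 5 = x + (w + x) := by simp [ev]
        rw [this, show x + (w + x) = (x + x) + w by abel, S.two, zero_add]
      show S.q (ev [x, y, w + x, v] 3) (ev [x, y, w + x, v] 5) = S.z
      rw [e1, e2, hw]
    · have e1 : ev [x, y, w + x, v] 1 = x := by simp [ev]
      have e2 : ev [x, y, w + x, v] 8 = v := by simp [ev]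
      show S.q (ev [x, y, w + x, v] 1) (ev [x, y, w + x, v] 8) = S.z
      rw [e1, e2, hv]
  · intro p hp
    simp only [st4, List.mem_cons, List.not_mem_nil, or_false] at hp
    subst hp
    refine ⟨v', ?_, hvr'⟩
    have e1 : ev [x, y, w + x, v] 2 = y := by simp [ev]
    show S.q (ev [x, y, w + x, v] 2) v' = S.z
    rw [e1, hv']
  · intro p hp
    simp only [st4, List.mem_cons, List.not_mem_nil, or_false] at hp
    subst hp
    rintro ⟨w', h1, h2⟩
    have e1 : ev [x, y, w + x, v] 2 = y := by simp [ev]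
    have h1' : S.q (ev [x, y, w + x, v] 2) w' = S.z := h1
    rw [e1] at h1'
    exact hno w' h1' h2

theorem use3 {x y w v : V} (hx : E.c x = 1) (hy : E.c y = 2) (hw : S.q (x + y) w = S.z)
    (hwx : E.c w = 1) (hv : S.q x v = S.z) (hvr : E.c v = 4)
    (hno : ∀ w', S.q y w' = S.z → E.c w' ≠ 1 ∧ E.c w' ≠ 4 ∧ E.c w' ≠ 5) : False := by
  have e1 : ev [x, y, w + x, v] 2 = y := by simp [ev]
  refine check_sound (E := E) cert3 st3 [x, y, w + x, v] ⟨?_, ?_, ?_, ?_⟩ check3
  · refine List.Forall₂.cons hx (List.Forall₂.cons hy (List.Forall₂.cons ?_ (List.Forall₂.cons hvr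
      List.Forall₂.nil)))
    rw [E.c_add, hwx, hx]; rfl
  · intro p hp
    simp only [st3, List.mem_cons, List.not_mem_nil, or_false] at hp
    rcases hp with rfl | rfl
    · have e1 : ev [x, y, w + x, v] 3 = x + y := by simp [ev]
      have e2 : ev [x, y, w + x, v] 5 = w := by
        have : ev [x, y, w + x, v] 5 = x + (w + x) := by simp [ev]
        rw [this, show x + (w + x) = (x + x) + w by abel, S.two, zero_add]
      show S.q (ev [x, y, w + x, v] 3) (ev [x, y, w + x, v] 5) = S.z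
      rw [e1, e2, hw]
    · have e1 : ev [x, y, w + x, v] 1 = x := by simp [ev]
      have e2 : ev [x, y, w + x, v] 8 = v := by simp [ev]
      show S.q (ev [x, y, w + x, v] 1) (ev [x, y, w + x, v] 8) = S.z
      rw [e1, e2, hv]
  · intro p hp
    simp [st3] at hp
  · intro p hp
    simp only [st3, List.mem_cons, List.not_mem_nil, or_false] at hp
    rcases hp with rfl | rfl | rfl
    · rintro ⟨w', h1, h2⟩
      have h1' : S.q (ev [x, y, w + x, v] 2) w' = S.z := h1
      rw [e1] at h1'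
      exact (hno w' h1').1 h2
    · rintro ⟨w', h1, h2⟩
      have h1' : S.q (ev [x, y, w + x, v] 2) w' = S.z := h1
      rw [e1] at h1'
      exact (hno w' h1').2.1 h2
    · rintro ⟨w', h1, h2⟩
      have h1' : S.q (ev [x, y, w + x, v] 2) w' = S.z := h1
      rw [e1] at h1'
      exact (hno w' h1').2.2 h2

/-- main lemma, in standard coordinates -/
theorem lemA0 {x y w v : V} (hx : E.c x = 1) (hy : E.c y = 2) (hw : S.q (x + y) w = S.z)
    (hwx : E.c w = 1) (hv : S.q x v = S.z) (hvr : E.c v = 4) : ∃ w', S.q y w' = S.z ∧ E.c w' = 1 := by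
  by_contra hc
  push Not at hc
  by_cases h4 : ∃ v', S.q y v' = S.z ∧ E.c v' = 4
  · obtain ⟨v', h1, h2⟩ := h4
    exact use4 E hx hy hw hwx hv hvr h1 h2 hc
  by_cases h5 : ∃ v', S.q y v' = S.z ∧ E.c v' = 5
  · obtain ⟨v', h1, h2⟩ := h5
    -- coordinates with respect to `1, 2, 5`
    have hi : ind3 1 2 5 = true := by decide
    let F := E.change 1 2 5 (by norm_num) (by norm_num) (by norm_num) hi
    have hF : ∀ x, F.c x = gg 1 2 5 (E.c x) := fun x => rfl
    refine use4 F (x := x) (y := y) (w := w) (v := v + x) (v' := v') ?_ ?_ hw ?_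
      (LD.pure_add hv (S.self x)) ?_ h1 ?_ ?_
    · rw [hF, hx]; decide
    · rw [hF, hy]; decide
    · rw [hF, hwx]; decide
    · rw [hF, E.c_add, hvr, hx]; decide
    · rw [hF, h2]; decide
    · intro w' hw' h
      rw [hF] at h
      have h3 := hc w' hw'
      have h4 := E.c_lt w'
      generalize E.c w' = s at h h3 h4
      interval_cases s <;> revert h <;> first | decide | exact absurd rfl h3
  push Not at h4 h5
  exact use3 E hx hy hw hwx hv hvr fun w' hw' => ⟨hc w' hw', h4 w' hw', h5 w' hw'⟩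

theorem xor_lt8 {a b : ℕ} (ha : a < 8) (hb : b < 8) : a ^^^ b < 8 :=
  Nat.xor_lt_two_pow (n := 3) (by norm_num; exact ha) (by norm_num; exact hb)

/-- **main lemma** -/
theorem lemA {x y w v : V} (hI : ind3 (E.c x) (E.c y) (E.c v) = true) (hw : S.q (x + y) w = S.z)
    (hwx : E.c w = E.c x) (hv : S.q x v = S.z) : ∃ w', S.q y w' = S.z ∧ E.c w' = E.c x := by
  have ha := E.c_lt x
  have hb := E.c_lt y
  have hr := E.c_lt v
  let F := E.change _ _ _ ha hb hr hI
  have hF : ∀ z, F.c z = gg (E.c x) (E.c y) (E.c v) (E.c z) := fun z => rfl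
  obtain ⟨g1, g2, g3, g4⟩ := gg_spec _ ha _ hb _ hr hI
  obtain ⟨w', h1, h2⟩ := lemA0 F (x := x) (y := y) (w := w) (v := v) (by rw [hF, g1]) (by rw [hF, g2])
    hw (by rw [hF, hwx, g1]) hv (by rw [hF, g3])
  refine ⟨w', h1, ?_⟩
  rw [hF, ← g1] at h2
  exact (gg_inj ha hb hr hI (xor_lt8 (E.c_lt _) ha)).1 h2

/-- the swap argument -/
theorem key {x1 x2 x3 v1 v2 v3 : V} (h1 : S.q x1 v1 = S.z) (h2 : S.q x2 v2 = S.z) (h3 : S.q x3 v3 = S.z)
    (c1 : E.c x1 = 1) (c2 : E.c x2 = 1) (c3 : E.c x3 = 1) (d1 : E.c v1 = 2) (d2 : E.c v2 = 4)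
    (d3 : E.c v3 = 6) : ∃ w', S.q (x1 + x2 + x3) w' = S.z ∧ E.c w' = 6 := by
  have e1 : S.q (v1 + v2) x1 = S.q x1 v2 := by
    rw [S.symm, add_comm v1]
    exact LD.add_pure h1
  have e2 : S.q (x1 + x2) v2 = S.q x1 v2 := LD.add_pure' h2
  obtain ⟨t, k1, k2, k3⟩ := LD.slot (S := S) (a := v1 + v2) (b := x1) (c := x1 + x2) (d := v2)
    (by rw [e1, e2])
  have g1 := E.pure _ _ k1
  have g2 := E.pure _ _ k2
  have g3 := E.pure _ _ k3
  have p1 := E.pure _ _ h1
  have p2 := E.pure _ _ h2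
  simp only [E.c_add, c1, c2, d1, d2, E.om_add, En.om_add'] at g1 g2 g3 p1 p2
  rw [E.om_symm v1 x1, E.om_symm v2 x1] at g1
  have hpar : ind (2 ^^^ 4) (1 ^^^ E.c t) = ind (2 ^^^ 4 ^^^ (1 ^^^ 1)) (E.c t) := by
    rw [← g1, ← g3]
    have q1 : ind 1 2 = true := by decide
    have q2 : ind 1 4 = true := by decide
    have q3 : ind (1 ^^^ 1) (4 ^^^ E.c t) = false := by
      rw [Nat.xor_self, ind_zero_left]
    rw [q3] at g2
    rw [q1] at p1
    rw [q2] at p2
    rw [p1]
    rw [p2] at g2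
    revert g2
    cases E.om x1 v2 <;> cases E.om v1 t <;> cases E.om v2 t <;> cases E.om x1 t <;> cases E.om x2 t <;> simp
  have hlt := E.c_lt t
  have hN : E.c t = 2 ∨ E.c t = 3 ∨ E.c t = 4 ∨ E.c t = 5 := by
    generalize E.c t = s at hpar hlt
    interval_cases s <;> revert hpar <;> decide
  -- first application
  have w0 : v1 + v2 + (v1 + v2 + x3) = x3 := LD.cancel S _ _
  obtain ⟨w1, a1, a2⟩ := lemA E (x := v1 + v2) (y := v1 + v2 + x3) (w := v3) (v := x1 + t)
    (by
      simp only [E.c_add, d1, d2, c1, c3]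
      rcases hN with h | h | h | h <;> rw [h] <;> decide)
    (by rw [w0]; exact h3)
    (by rw [d3, E.c_add, d1, d2]; rfl) k1
  have w00 : v1 + v2 + (x1 + x2) + (x3 + (x1 + x2)) = v1 + v2 + x3 := by
    rw [show v1 + v2 + (x1 + x2) + (x3 + (x1 + x2)) = v1 + v2 + x3 + ((x1 + x2) + (x1 + x2)) by abel,
      S.two, add_zero]
  obtain ⟨w2, b1, b2⟩ := lemA E (x := v1 + v2 + (x1 + x2)) (y := x3 + (x1 + x2)) (w := w1) (v := t)
    (by
      simp only [E.c_add, d1, d2, c1, c2, c3]
      rcases hN with h | h | h | h <;> rw [h] <;> decide)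
    (by rw [w00]; exact a1)
    (by rw [a2]; simp only [E.c_add, c1, c2]; rw [Nat.xor_self, Nat.xor_zero]) k3
  refine ⟨w2, ?_, ?_⟩
  · rw [show x1 + x2 + x3 = x3 + (x1 + x2) by abel]; exact b1
  · rw [b2]; simp only [E.c_add, c1, c2, d1, d2]; rfl

/-- **There are no enemies of codimension three.** -/
theorem no_enemy (hall : ∀ a < 8, ∀ b < 8, ind a b = true → ∃ x v, S.q x v = S.z ∧ E.c x = a ∧ E.c v = b) :
    False := by
  obtain ⟨x1, v1, h1, c1, d1⟩ := hall 1 (by norm_num) 2 (by norm_num) (by decide)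
  obtain ⟨x2, v2, h2, c2, d2⟩ := hall 1 (by norm_num) 4 (by norm_num) (by decide)
  obtain ⟨x3, v3, h3, c3, d3⟩ := hall 1 (by norm_num) 6 (by norm_num) (by decide)
  obtain ⟨w, k1, k2⟩ := key E h1 h2 h3 c1 c2 c3 d1 d2 d3
  -- the same with the coordinates `1, 2, 6`
  have hi : ind3 1 2 6 = true := by decide
  let F := E.change 1 2 6 (by norm_num) (by norm_num) (by norm_num) hi
  have hF : ∀ x, F.c x = gg 1 2 6 (E.c x) := fun x => rfl
  obtain ⟨w', k3, k4⟩ := key F (x1 := x1) (x2 := x3) (x3 := x2) (v1 := v1) (v2 := v3) (v3 := v2) h1 h3 h2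
    (by rw [hF, c1]; decide) (by rw [hF, c3]; decide) (by rw [hF, c2]; decide) (by rw [hF, d1]; decide)
    (by rw [hF, d3]; decide) (by rw [hF, d2]; decide)
  rw [show x1 + x3 + x2 = x1 + x2 + x3 by abel] at k3
  have k5 : E.c w' = 4 := by
    rw [hF] at k4
    have := E.c_lt w'
    generalize E.c w' = s at k4 this
    interval_cases s <;> revert k4 <;> decide
  exact En.thin (E := E) k1 k3 (by simp only [E.c_add, c1, c2, c3, k2, k5]; decide)

end certs

end Pool.Agent.Codim3
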