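import Pool.Agent.Codim3.Check

/-!
Soundness of the checker.
-/

namespace Pool.Agent.Codim3

variable {V Q : Type} [AddCommGroup V]

/-! ### formal vectors -/

theorem cl_xor (im : List ℕ) : ∀ a b : ℕ, cl im (a ^^^ b) = cl im a ^^^ cl im b := by
  induction im with
  | nil => intro a b; simp [cl]
  | cons c l ih =>
    intro a b
    simp only [cl, Nat.testBit_xor, Nat.xor_div_two, ih]
    have key : ∀ x y A B : ℕ, x ^^^ y ^^^ (A ^^^ B) = (x ^^^ A) ^^^ (y ^^^ B) := by
      intro x y A B; ac_rfl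
    rw [← key]
    congr 1
    cases a.testBit 0 <;> cases b.testBit 0 <;> simp

theorem cl_zero (im : List ℕ) : cl im 0 = 0 := by
  induction im with
  | nil => rfl
  | cons c l ih => simp [cl, ih]

theorem ev_zero (L : List V) : ev L 0 = 0 := by
  induction L with
  | nil => rfl
  | cons c l ih => simp [ev, ih]

theorem ev_xor (S : LD V Q) (L : List V) : ∀ a b : ℕ, ev L (a ^^^ b) = ev L a + ev L b := by
  induction L with
  | nil => intro a b; simp [ev]
  | cons v l ih =>
    intro a b
    simp only [ev, Nat.testBit_xor, Nat.xor_div_two, ih]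
    cases a.testBit 0 <;> cases b.testBit 0
    · simp
    · simp; abel
    · simp; abel
    · simp only [Bool.xor_self, Bool.false_eq_true, if_false, if_true, zero_add]
      rw [show v + ev l (a / 2) + (v + ev l (b / 2)) = (v + v) + (ev l (a / 2) + ev l (b / 2)) by abel,
        S.two, zero_add]

theorem ev_append (L : List V) (t : V) : ∀ m : ℕ,
    ev (L ++ [t]) m = ev L m + (if m.testBit L.length then t else 0) := by
  induction L with
  | nil => intro m; simp [ev]
  | cons v l ih =>
    intro m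
    simp only [List.cons_append, ev, ih, List.length_cons, Nat.testBit_div_two]
    abel

theorem ev_two_pow (L : List V) : ev L (2 ^ L.length) = 0 := by
  induction L with
  | nil => rfl
  | cons v l ih =>
    simp only [List.length_cons, ev]
    have h1 : ¬ ((2 ^ (l.length + 1)).testBit 0 = true) := by
      rw [Nat.testBit_two_pow_of_ne (by omega)]; simp
    have h2 : 2 ^ (l.length + 1) / 2 = 2 ^ l.length := by
      rw [pow_succ]; simp
    rw [if_neg h1, h2, ih, zero_add]

theorem ev_fresh (L : List V) (t : V) {m : ℕ} (h : m.testBit L.length = false) :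
    ev (L ++ [t]) m = ev L m := by
  rw [ev_append, h]; simp

theorem ev_new (L : List V) (t : V) : ev (L ++ [t]) (2 ^ L.length) = t := by
  rw [ev_append, ev_two_pow, Nat.testBit_two_pow_self]
  simp

/-! ### independence -/

theorem ind_zero_left (b : ℕ) : ind 0 b = false := by simp [ind]

theorem ind_zero_right (a : ℕ) : ind a 0 = false := by simp [ind]

theorem ind_self (a : ℕ) : ind a a = false := by simp [ind]

theorem beq_f {a b : ℕ} : Nat.beq a b = false ↔ a ≠ b := by
  rw [← Bool.not_eq_true, Nat.beq_eq]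

theorem ind_iff {a b : ℕ} : ind a b = true ↔ a ≠ 0 ∧ b ≠ 0 ∧ a ≠ b := by
  simp only [ind, Bool.and_eq_true, Bool.not_eq_true', beq_f]

theorem ind3_iff {a b r : ℕ} : ind3 a b r = true ↔
    (a ≠ 0 ∧ b ≠ 0 ∧ a ≠ b) ∧ (a ≠ 0 ∧ r ≠ 0 ∧ a ≠ r) ∧ (b ≠ 0 ∧ r ≠ 0 ∧ b ≠ r) ∧ a ^^^ b ≠ r := by
  simp only [ind3, ind, Bool.and_eq_true, Bool.not_eq_true', beq_f]

theorem xor_eq_zero' {a b : ℕ} : a ^^^ b = 0 ↔ a = b := Nat.xor_eq_zero_iff

theorem xor_eq_iff' {a b c : ℕ} : a ^^^ b = c ↔ a = c ^^^ b := by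
  constructor
  · rintro rfl; rw [Nat.xor_assoc, Nat.xor_self, Nat.xor_zero]
  · rintro rfl; rw [Nat.xor_assoc, Nat.xor_self, Nat.xor_zero]

theorem ind3_ab {a b r : ℕ} (h : ind3 a b r = true) : ind a b = true ∧ ind a r = true ∧ ind b r = true ∧
    ind a (b ^^^ r) = true ∧ ind (a ^^^ b) r = true := by
  rw [ind3_iff] at h
  obtain ⟨h1, h2, h3, h4⟩ := h
  refine ⟨ind_iff.2 h1, ind_iff.2 h2, ind_iff.2 h3, ind_iff.2 ⟨h1.1, ?_, ?_⟩, ind_iff.2 ⟨?_, h2.2.1, h4⟩⟩
  · intro h; exact h3.2.2 (xor_eq_zero'.1 h)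
  · intro h
    apply h4
    rw [h, Nat.xor_right_comm, Nat.xor_self, Nat.zero_xor]
  · intro h; exact h1.2.2 (xor_eq_zero'.1 h)

/-! ### semantics -/

variable {S : LD V Q} (E : En S)

namespace En

variable {E : En S}

theorem om_self (x : V) : E.om x x = false := by
  rw [E.pure x x (S.self x), ind_self]

theorem om_zero (x : V) : E.om x 0 = false := by
  have := E.om_add x 0 0
  rw [add_zero] at this
  rw [this, Bool.xor_self]

theorem om_add' (x x' y : V) : E.om (x + x') y = (E.om x y ^^ E.om x' y) := by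
  rw [E.om_symm, E.om_add, E.om_symm y, E.om_symm y]

theorem c_zero : E.c 0 = 0 := by
  have := E.c_add 0 0
  rw [add_zero, Nat.xor_self] at this
  exact this

/-- equal quaternions of elements of `U` -/
theorem om_eq {a b c d : V} (ha : E.c a = 0) (hc : E.c c = 0) (h : S.q a b = S.q c d) :
    E.om a b = E.om c d := by
  obtain ⟨t, h1, h2, h3⟩ := LD.slot h
  have g1 := E.pure _ _ h1
  have g2 := E.pure _ _ h2
  have g3 := E.pure _ _ h3
  rw [E.c_add, ha, hc, Nat.xor_self, ind_zero_left, om_add'] at g3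
  rw [ha, ind_zero_left, E.om_add] at g1
  rw [hc, ind_zero_left, E.om_add] at g2
  revert g1 g2 g3
  cases E.om a b <;> cases E.om c d <;> cases E.om a t <;> cases E.om c t <;> simp

theorem thin {x v v' : V} (h : S.q x v = S.z) (h' : S.q x v' = S.z)
    (hi : ind3 (E.c x) (E.c v) (E.c v') = true) : False := by
  obtain ⟨h1, h2, _, h4, _⟩ := ind3_ab hi
  have g := E.pure _ _ (LD.pure_add h h')
  rw [E.om_add, E.pure _ _ h, E.pure _ _ h', E.c_add, h1, h2, h4] at g
  exact absurd g (by decide)

theorem conc {x y v1 v2 v3 : V} {r : ℕ} (h1 : S.q x v1 = S.z) (h2 : S.q y v2 = S.z)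
    (h3 : S.q (x + y) v3 = S.z) (c1 : E.c v1 = r) (c2 : E.c v2 = r) (c3 : E.c v3 = r)
    (hi : ind3 (E.c x) (E.c y) r = true) : False := by
  obtain ⟨i1, i2, i3, i4, i5⟩ := ind3_ab hi
  have e1 : S.q (v1 + v3) x = S.q v3 x := by
    rw [add_comm]; exact LD.add_pure' (by rw [S.symm, h1])
  have e2 : S.q (v2 + v3) y = S.q v3 y := by
    rw [add_comm]; exact LD.add_pure' (by rw [S.symm, h2])
  have e3 : S.q v3 x = S.q v3 y := by
    rw [S.add, S.symm]; exact h3
  have e4 := om_eq (E := E) (a := v1 + v3) (b := x) (c := v2 + v3) (d := y)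
    (by rw [E.c_add, c1, c3, Nat.xor_self]) (by rw [E.c_add, c2, c3, Nat.xor_self])
    (by rw [e1, e2, e3])
  have g1 := E.pure _ _ h1
  have g2 := E.pure _ _ h2
  have g3 := E.pure _ _ h3
  rw [c1, i2] at g1
  rw [c2, i3] at g2
  rw [c3, E.c_add, i5, om_add'] at g3
  rw [om_add', om_add', E.om_symm v1, E.om_symm v3, E.om_symm v2, E.om_symm v3, g1, g2] at e4
  revert e4 g3
  cases E.om x v3 <;> cases E.om y v3 <;> simp

end En

/-- interpretation of a state -/
structure Ok (st : St) (L : List V) : Prop where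
  im : List.Forall₂ (fun v c => E.c v = c) L st.im
  pures : ∀ p ∈ st.pures, S.q (ev L p.1) (ev L p.2) = S.z
  parts : ∀ p ∈ st.parts, ∃ v, S.q (ev L p.1) v = S.z ∧ E.c v = p.2
  forbs : ∀ p ∈ st.forbs, ¬ ∃ v, S.q (ev L p.1) v = S.z ∧ E.c v = p.2

/-- interpretation of a formal equation -/
structure RepOk (L : List V) (r : Rep) : Prop where
  eq : S.q (ev L r.a) (ev L r.b) = S.q (ev L r.c) (ev L r.d)
  om : (E.om (ev L r.a) (ev L r.b) ^^ E.om (ev L r.c) (ev L r.d)) = r.e

variable {E}

theorem c_ev {L : List V} {im : List ℕ} (h : List.Forall₂ (fun v c => E.c v = c) L im) :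
    ∀ m, E.c (ev L m) = cl im m := by
  induction h with
  | nil => intro m; simp [ev, cl, En.c_zero]
  | cons hvc _ ih =>
    intro m
    simp only [ev, cl]
    rw [E.c_add, ih]
    cases m.testBit 0
    · simp [En.c_zero]
    · simp [hvc]

theorem plane {x y u w : V} (h : S.q x y = S.z) (hu : u = x ∨ u = y ∨ u = x + y)
    (hw : w = x ∨ w = y ∨ w = x + y) : S.q u w = S.z := by
  have h' : S.q y x = S.z := by rw [S.symm, h]
  have a1 : S.q x (x + y) = S.z := LD.pure_add (S.self x) h
  have a2 : S.q y (x + y) = S.z := LD.pure_add h' (S.self y)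
  rcases hu with rfl | rfl | rfl <;> rcases hw with rfl | rfl | rfl
  · exact S.self _
  · exact h
  · exact a1
  · exact h'
  · exact S.self _
  · exact a2
  · rw [S.symm]; exact a1
  · rw [S.symm]; exact a2
  · exact S.self _

theorem inP_sound (S : LD V Q) {L : List V} {a b v : ℕ} (h : inP a b v = true) :
    ev L v = ev L a ∨ ev L v = ev L b ∨ ev L v = ev L a + ev L b := by
  unfold inP at h
  simp only [Bool.or_eq_true, Nat.beq_eq] at h
  rcases h with rfl | rfl | rfl
  · exact Or.inl rfl
  · exact Or.inr (Or.inl rfl)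
  · exact Or.inr (Or.inr (ev_xor S L _ _))

theorem isPure_sound {st : St} {L : List V} (hO : Ok E st L) {a b : ℕ} (h : isPure st a b = true) :
    S.q (ev L a) (ev L b) = S.z := by
  unfold isPure at h
  simp only [Bool.or_eq_true, Nat.beq_eq, List.any_eq_true, Bool.and_eq_true] at h
  rcases h with rfl | rfl | rfl | ⟨p, hp, h1, h2⟩
  · rw [ev_zero, S.zero_q]
  · rw [ev_zero, S.q_zero]
  · exact S.self _
  · exact plane (hO.pures p hp) (inP_sound S h1) (inP_sound S h2)

theorem step_sound {st : St} {L : List V} (hO : Ok E st L) {m : Mv} {r r' : Rep} (hr : RepOk E L r)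
    (h : step st m r = some r') : RepOk E L r' := by
  obtain ⟨h1, h2⟩ := hr
  cases m with
  | swp =>
    simp only [step, Option.some.injEq] at h
    subst h
    exact ⟨h1.symm, by rw [Bool.xor_comm]; exact h2⟩
  | sym =>
    simp only [step, Option.some.injEq] at h
    subst h
    exact ⟨by rw [S.symm]; exact h1, by rw [E.om_symm]; exact h2⟩
  | addA =>
    simp only [step, Option.some.injEq] at h
    subst h
    refine ⟨?_, ?_⟩
    · simp only [ev_xor S]
      rw [LD.add_pure (S.self _)]; exact h1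
    · simp only [ev_xor S]
      rw [E.om_add, En.om_self, Bool.xor_false]; exact h2
  | mix =>
    simp only [step, Option.some.injEq] at h
    subst h
    refine ⟨?_, ?_⟩
    · simp only [ev_xor S]
      exact LD.mixq h1
    · simp only [ev_xor S]
      rw [E.om_add, En.om_add', E.om_symm (ev L r.c) (ev L r.b), ← h2]
      cases E.om (ev L r.a) (ev L r.b) <;> cases E.om (ev L r.b) (ev L r.c) <;>
        cases E.om (ev L r.c) (ev L r.d) <;> rfl
  | addP w =>
    simp only [step] at h
    split at h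
    · rename_i hp
      simp only [Option.some.injEq] at h
      subst h
      have hq := isPure_sound hO hp
      refine ⟨?_, ?_⟩
      · simp only [ev_xor S]
        rw [LD.add_pure hq]; exact h1
      · simp only [ev_xor S]
        rw [E.om_add, E.pure _ _ hq, c_ev hO.im, c_ev hO.im, ← h2]
        cases E.om (ev L r.a) (ev L r.b) <;> cases ind (cl st.im r.a) (cl st.im w) <;>
          cases E.om (ev L r.c) (ev L r.d) <;> rfl
    · exact absurd h (by simp)
  | seta a =>
    simp only [step] at h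
    split at h
    · rename_i hp
      simp only [Option.some.injEq] at h
      subst h
      rw [Nat.beq_eq] at hp
      rw [hp, ev_zero, S.q_zero] at h1
      rw [hp, ev_zero, En.om_zero] at h2
      refine ⟨?_, ?_⟩
      · rw [ev_zero, S.q_zero]; exact h1
      · rw [ev_zero, En.om_zero]; exact h2
    · exact absurd h (by simp)

theorem run_sound {st : St} {L : List V} (hO : Ok E st L) : ∀ (ms : List Mv) {r r' : Rep}, RepOk E L r →
    run st ms r = some r' → RepOk E L r' := by
  intro ms
  induction ms with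
  | nil =>
    intro r r' hr h
    simp only [run, Option.some.injEq] at h
    subst h; exact hr
  | cons m ms ih =>
    intro r r' hr h
    simp only [run] at h
    split at h
    · exact absurd h (by simp)
    · rename_i r1 h1
      exact ih (step_sound hO hr h1) h

theorem rep0 (L : List V) : RepOk E L ⟨0, 0, 0, 0, false⟩ := ⟨rfl, by simp⟩

theorem run0_sound {st : St} {L : List V} (hO : Ok E st L) {ms : List Mv} {r : Rep}
    (h : run st ms ⟨0, 0, 0, 0, false⟩ = some r) : RepOk E L r := run_sound hO ms (rep0 L) h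

theorem pPart_sound {st : St} {L : List V} (hO : Ok E st L) {p : ℕ × ℕ} (hp : p ∈ st.pures) {x r : ℕ}
    (h : pPart st.im p x r = true) : ∃ v, S.q (ev L x) v = S.z ∧ E.c v = r := by
  have hq := hO.pures p hp
  unfold pPart at h
  simp only [Bool.or_eq_true, Nat.beq_eq, Bool.and_eq_true] at h
  rcases h with ⟨rfl, rfl | rfl⟩ | ⟨rfl, rfl | rfl⟩ | ⟨rfl, rfl | rfl⟩
  · exact ⟨_, hq, c_ev hO.im _⟩
  · refine ⟨ev L p.1 + ev L p.2, plane hq (Or.inl rfl) (Or.inr (Or.inr rfl)), ?_⟩
    rw [E.c_add, c_ev hO.im, c_ev hO.im]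
  · exact ⟨ev L p.1, plane hq (Or.inr (Or.inl rfl)) (Or.inl rfl), c_ev hO.im _⟩
  · refine ⟨ev L p.1 + ev L p.2, plane hq (Or.inr (Or.inl rfl)) (Or.inr (Or.inr rfl)), ?_⟩
    rw [E.c_add, c_ev hO.im, c_ev hO.im]
  · refine ⟨ev L p.1, ?_, c_ev hO.im _⟩
    rw [ev_xor S]
    exact plane hq (Or.inr (Or.inr rfl)) (Or.inl rfl)
  · refine ⟨ev L p.2, ?_, c_ev hO.im _⟩
    rw [ev_xor S]
    exact plane hq (Or.inr (Or.inr rfl)) (Or.inr (Or.inl rfl))

theorem hasPart_sound {st : St} {L : List V} (hO : Ok E st L) {x r : ℕ} (h : hasPart st x r = true) :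
    ∃ v, S.q (ev L x) v = S.z ∧ E.c v = r := by
  unfold hasPart at h
  simp only [Bool.or_eq_true, Nat.beq_eq, List.any_eq_true, Bool.and_eq_true] at h
  rcases h with rfl | rfl | ⟨p, hp, h1⟩ | ⟨p, hp, rfl, h1 | h1⟩
  · exact ⟨0, S.q_zero _, En.c_zero⟩
  · exact ⟨ev L x, S.self _, c_ev hO.im _⟩
  · exact pPart_sound hO hp h1
  · obtain ⟨v, g1, g2⟩ := hO.parts p hp
    exact ⟨v, g1, by rw [g2, h1]⟩
  · obtain ⟨v, g1, g2⟩ := hO.parts p hp
    refine ⟨v + ev L p.1, LD.pure_add g1 (S.self _), ?_⟩
    rw [E.c_add, g2, h1, c_ev hO.im, Nat.xor_assoc, Nat.xor_self, Nat.xor_zero]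

theorem deg_sound {L : List V} {r : Rep} (hr : RepOk E L r) (h : deg r = true) :
    S.q (ev L r.c) (ev L r.d) = S.z ∧ E.om (ev L r.c) (ev L r.d) = r.e := by
  obtain ⟨h1, h2⟩ := hr
  unfold deg at h
  simp only [Bool.or_eq_true, Nat.beq_eq] at h
  rcases h with h | h | h
  · rw [h, ev_zero, S.zero_q] at h1
    rw [h, ev_zero, E.om_symm, En.om_zero, Bool.false_xor] at h2
    exact ⟨h1.symm, h2⟩
  · rw [h, ev_zero, S.q_zero] at h1
    rw [h, ev_zero, En.om_zero, Bool.false_xor] at h2
    exact ⟨h1.symm, h2⟩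
  · rw [h, S.self] at h1
    rw [h, En.om_self, Bool.false_xor] at h2
    exact ⟨h1.symm, h2⟩

theorem par_sound {st : St} {L : List V} (hO : Ok E st L) {r : Rep} (hr : RepOk E L r) {t : V}
    (h1 : S.q (ev L r.a) (ev L r.b + t) = S.z) (h2 : S.q (ev L r.c) (ev L r.d + t) = S.z)
    (h3 : S.q (ev L r.a + ev L r.c) t = S.z) : parOk st.im r (E.c t) = false := by
  have g1 := E.pure _ _ h1
  have g2 := E.pure _ _ h2
  have g3 := E.pure _ _ h3
  simp only [E.c_add, c_ev hO.im, E.om_add, En.om_add'] at g1 g2 g3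
  unfold parOk
  rw [← g1, ← g2, ← g3, ← hr.om]
  cases E.om (ev L r.a) (ev L r.b) <;> cases E.om (ev L r.a) t <;> cases E.om (ev L r.c) (ev L r.d) <;>
    cases E.om (ev L r.c) t <;> rfl

theorem addParts_ok {st : St} {L : List V} (hO : Ok E st L) {r : Rep} {t : V}
    (h1 : S.q (ev L r.a) (ev L r.b + t) = S.z) (h2 : S.q (ev L r.c) (ev L r.d + t) = S.z)
    (h3 : S.q (ev L r.a + ev L r.c) t = S.z) : Ok E (addParts st r (E.c t)) L := by
  refine ⟨hO.im, hO.pures, ?_, hO.forbs⟩
  intro p hp
  simp only [addParts, List.mem_cons] at hp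
  rcases hp with rfl | rfl | rfl | hp
  · exact ⟨_, h1, by rw [E.c_add, c_ev hO.im]⟩
  · exact ⟨_, h2, by rw [E.c_add, c_ev hO.im]⟩
  · refine ⟨t, ?_, rfl⟩
    rw [ev_xor S]; exact h3
  · exact hO.parts p hp

theorem addSlot_ok {st : St} {L : List V} (hO : Ok E st L) {r : Rep} (hf : fresh st r = true) {t : V}
    (h1 : S.q (ev L r.a) (ev L r.b + t) = S.z) (h2 : S.q (ev L r.c) (ev L r.d + t) = S.z)
    (h3 : S.q (ev L r.a + ev L r.c) t = S.z) : Ok E (addSlot st r (E.c t)) (L ++ [t]) := by
  have hlen : L.length = st.im.length := hO.im.length_eq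
  unfold fresh fresh1 fresh2 at hf
  simp only [Bool.and_eq_true, Bool.not_eq_true', List.all_eq_true, ← hlen] at hf
  obtain ⟨fa, fb, fc, fd, f1, f2, f3⟩ := hf
  refine ⟨?_, ?_, ?_, ?_⟩
  · exact List.rel_append hO.im (List.Forall₂.cons rfl List.Forall₂.nil)
  · intro p hp
    simp only [addSlot, List.mem_cons, ← hlen] at hp
    rcases hp with rfl | rfl | rfl | hp
    · rw [ev_xor S, ev_new, ev_fresh L t fa, ev_fresh L t fb]; exact h1
    · rw [ev_xor S, ev_new, ev_fresh L t fc, ev_fresh L t fd]; exact h2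
    · rw [ev_xor S, ev_new, ev_fresh L t fa, ev_fresh L t fc]; exact h3
    · rw [ev_fresh L t (f1 p hp).1, ev_fresh L t (f1 p hp).2]; exact hO.pures p hp
  · intro p hp
    rw [ev_fresh L t (f2 p hp)]; exact hO.parts p hp
  · intro p hp
    rw [ev_fresh L t (f3 p hp)]; exact hO.forbs p hp

/-- **Soundness.** -/
theorem check_sound : ∀ (C : Cert) (st : St) (L : List V), Ok E st L → check C st = true → False := by
  intro C
  induction C with
  | nil => intro st L hO h; exact absurd h (by simp [check])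
  | thin x r r' =>
    intro st L hO h
    simp only [check, Bool.and_eq_true] at h
    obtain ⟨h0, h1, h2⟩ := h
    obtain ⟨v, g1, g2⟩ := hasPart_sound hO h1
    obtain ⟨v', g3, g4⟩ := hasPart_sound hO h2
    exact En.thin g1 g3 (by rw [g2, g4, c_ev hO.im]; exact h0)
  | conc x y r =>
    intro st L hO h
    simp only [check, Bool.and_eq_true] at h
    obtain ⟨h0, h1, h2, h3⟩ := h
    obtain ⟨v1, g1, k1⟩ := hasPart_sound hO h1
    obtain ⟨v2, g2, k2⟩ := hasPart_sound hO h2
    obtain ⟨v3, g3, k3⟩ := hasPart_sound hO h3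
    rw [ev_xor S] at g3
    exact En.conc g1 g2 g3 k1 k2 k3 (by rw [c_ev hO.im, c_ev hO.im]; exact h0)
  | forb x r =>
    intro st L hO h
    simp only [check, Bool.and_eq_true, List.any_eq_true, Nat.beq_eq] at h
    obtain ⟨h1, p, hp, rfl, rfl⟩ := h
    exact hO.forbs p hp (hasPart_sound hO h1)
  | contra ms =>
    intro st L hO h
    simp only [check] at h
    split at h
    · exact absurd h (by simp)
    · rename_i r hr
      have hR := run0_sound hO hr
      simp only [Bool.and_eq_true] at h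
      obtain ⟨h1, h2⟩ := deg_sound hR h.1
      have h3 := E.pure _ _ h1
      rw [h2, c_ev hO.im, c_ev hO.im] at h3
      rw [h3, Bool.xor_self] at h
      exact absurd h.2 (by simp)
  | pure ms k ih =>
    intro st L hO h
    simp only [check] at h
    split at h
    · exact absurd h (by simp)
    · rename_i r hr
      have hR := run0_sound hO hr
      simp only [Bool.and_eq_true] at h
      obtain ⟨h1, h2⟩ := deg_sound hR h.1
      refine ih { st with pures := (r.c, r.d) :: st.pures } L ⟨hO.im, ?_, hO.parts, hO.forbs⟩ h.2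
      intro p hp
      simp only [List.mem_cons] at hp
      rcases hp with rfl | hp
      · exact h1
      · exact hO.pures p hp
  | split ms k0 k1 k2 k3 k4 k5 k6 k7 i0 i1 i2 i3 i4 i5 i6 i7 =>
    intro st L hO h
    simp only [check] at h
    split at h
    · exact absurd h (by simp)
    · rename_i r hr
      have hR := run0_sound hO hr
      obtain ⟨t, h1, h2, h3⟩ := LD.slot hR.eq
      have hp := par_sound hO hR h1 h2 h3
      have ho := addParts_ok hO h1 h2 h3
      simp only [Bool.and_eq_true, Bool.or_eq_true] at h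
      obtain ⟨g0, g1, g2, g3, g4, g5, g6, g7⟩ := h
      have hlt := E.c_lt t
      generalize E.c t = s at hp ho hlt
      interval_cases s
      · exact i0 _ _ ho (g0.resolve_left (by rw [hp]; simp))
      · exact i1 _ _ ho (g1.resolve_left (by rw [hp]; simp))
      · exact i2 _ _ ho (g2.resolve_left (by rw [hp]; simp))
      · exact i3 _ _ ho (g3.resolve_left (by rw [hp]; simp))
      · exact i4 _ _ ho (g4.resolve_left (by rw [hp]; simp))
      · exact i5 _ _ ho (g5.resolve_left (by rw [hp]; simp))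
      · exact i6 _ _ ho (g6.resolve_left (by rw [hp]; simp))
      · exact i7 _ _ ho (g7.resolve_left (by rw [hp]; simp))
  | slot ms k0 k1 k2 k3 k4 k5 k6 k7 i0 i1 i2 i3 i4 i5 i6 i7 =>
    intro st L hO h
    simp only [check] at h
    split at h
    · exact absurd h (by simp)
    · rename_i r hr
      have hR := run0_sound hO hr
      obtain ⟨t, h1, h2, h3⟩ := LD.slot hR.eq
      have hp := par_sound hO hR h1 h2 h3
      simp only [Bool.and_eq_true, Bool.or_eq_true] at h
      obtain ⟨hf, g0, g1, g2, g3, g4, g5, g6, g7⟩ := h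
      have ho := addSlot_ok hO hf h1 h2 h3
      have hlt := E.c_lt t
      generalize E.c t = s at hp ho hlt
      interval_cases s
      · exact i0 _ _ ho (g0.resolve_left (by rw [hp]; simp))
      · exact i1 _ _ ho (g1.resolve_left (by rw [hp]; simp))
      · exact i2 _ _ ho (g2.resolve_left (by rw [hp]; simp))
      · exact i3 _ _ ho (g3.resolve_left (by rw [hp]; simp))
      · exact i4 _ _ ho (g4.resolve_left (by rw [hp]; simp))
      · exact i5 _ _ ho (g5.resolve_left (by rw [hp]; simp))
      · exact i6 _ _ ho (g6.resolve_left (by rw [hp]; simp))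
      · exact i7 _ _ ho (g7.resolve_left (by rw [hp]; simp))

end Pool.Agent.Codim3
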