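import Pool.Agent.Codim3.Main
import Pool.Agent.Lib_MP_d26ff6_al.Defs

/-!
Transfer to quaternionic structures with `-1 = 1`.
-/

namespace Pool.Agent.Codim3

open QS

/-- the additive form of a quaternionic structure with `-1 = 1` -/
def ofQ (S : QStruct) (h : S.neg = 1) : LD (Additive S.G) S.Q where
  q := fun x y => S.q x.toMul y.toMul
  z := S.zero
  two := fun x => S.exp_two x.toMul
  self := fun x => by
    have := S.qs1 x.toMul
    rwa [h, one_mul] at this
  symm := fun x y => S.qs2 _ _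
  add := fun x y w => S.qs3 _ _ _
  link := fun a b c d hh => S.qs4 _ _ _ _ hh

/-- Boolean to `ZMod 2` -/
def toZ (b : Bool) : ZMod 2 := if b then 1 else 0

/-- `ZMod 2` to Boolean -/
def toB (z : ZMod 2) : Bool := decide (z = 1)

theorem toB_add (z w : ZMod 2) : toB (z + w) = (toB z ^^ toB w) := by
  revert z w; decide

theorem toZ_xor (a b : Bool) : toZ (a ^^ b) = toZ a + toZ b := by
  revert a b; decide

theorem toZ_toB (z : ZMod 2) : toZ (toB z) = z := by
  revert z; decide

theorem extend_of_index (S : QStruct) (h : S.neg = 1) (U : Subgroup S.G) (h0 : U.index ≠ 0) (h8 : U.index ≤ 8)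
    (β : S.G → S.G → ZMod 2)
    (b1 : ∀ u ∈ U, ∀ u' ∈ U, ∀ v, β (u * u') v = β u v + β u' v)
    (b2 : ∀ u ∈ U, ∀ v v', β u (v * v') = β u v + β u v')
    (b3 : ∀ u ∈ U, ∀ v, S.q u v = S.zero → β u v = 0) :
    ∃ γ : S.G → S.G → ZMod 2,
      (∀ u u' v, γ (u * u') v = γ u v + γ u' v) ∧ (∀ u v v', γ u (v * v') = γ u v + γ u v') ∧
      (∀ u v, S.q u v = S.zero → γ u v = 0) ∧ ∀ u ∈ U, ∀ v, γ u v = β u v := by
  let _ : Module (ZMod 2) (Additive S.G) := AddCommGroup.zmodModule (fun x => by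
    rw [two_nsmul]; exact S.exp_two x.toMul)
  let W : Submodule (ZMod 2) (Additive S.G) := AddSubgroup.toZModSubmodule 2 (Subgroup.toAddSubgroup U)
  have hW : ∀ x : Additive S.G, x ∈ W ↔ x.toMul ∈ U := fun x => Iff.rfl
  have hidx : Nat.card (Additive S.G ⧸ W) = U.index := rfl
  obtain ⟨γ, hγ, hγ2⟩ := extend (S := ofQ S h) U.index W hidx h0 h8 (fun x y => toB (β x.toMul y.toMul))
    { addl := fun u hu u' hu' v => by
        rw [← toB_add, ← b1 u.toMul hu u'.toMul hu']; rfl
      addr := fun u hu v v' => by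
        rw [← toB_add, ← b2 u.toMul hu]; rfl
      pure := fun u hu v hh => by
        rw [b3 u.toMul hu v.toMul hh]; rfl }
  refine ⟨fun x y => toZ (γ (Additive.ofMul x) (Additive.ofMul y)), ?_, ?_, ?_, ?_⟩
  · intro u u' v
    show toZ (γ (Additive.ofMul (u * u')) _) = toZ _ + toZ _
    rw [ofMul_mul, hγ.addl _ trivial _ trivial, toZ_xor]
  · intro u v v'
    show toZ (γ _ (Additive.ofMul (v * v'))) = toZ _ + toZ _
    rw [ofMul_mul, hγ.addr _ trivial, toZ_xor]
  · intro u v hh
    show toZ (γ (Additive.ofMul u) (Additive.ofMul v)) = 0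
    rw [hγ.pure (Additive.ofMul u) trivial (Additive.ofMul v) hh]; rfl
  · intro u hu v
    show toZ (γ (Additive.ofMul u) (Additive.ofMul v)) = _
    rw [hγ2 (Additive.ofMul u) hu]
    exact toZ_toB _

end Pool.Agent.Codim3
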